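import Pool.Agent.Helper10.QD.M_DEX
import Pool.Agent.Helper10.QD.M_DNA
import Pool.Agent.Helper10.QD.M_LNF
import Pool.Agent.Helper10.QD.M_TCI
import Pool.Agent.Helper11.QD.M_PIN
import Pool.Agent.Helper11.QD.M_TMS
import Pool.Agent.Helper11.QD.M_WCP
import Pool.Agent.Helper18.QD.M_RKO
import Pool.Agent.Helper18.QD.M_TIN
import Pool.Agent.Helper2.QD.M_SID
import Pool.Agent.Helper24.QD.M_DET
import Pool.Agent.Helper24.QD.M_RAU
import Pool.Agent.Helper24.QD.M_WAR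
import Pool.Agent.Helper26.QD.M_LQC
import Pool.Agent.Helper26.QD.M_WIN
import Pool.Agent.Helper28.QD.M_SHO
import Pool.Agent.Helper29.QD.M_FLO
import Pool.Agent.Helper29.QD.M_RMO
import Pool.Agent.Helper32.QD.M_TSA
import Pool.Agent.Helper33.QD.M_DDI
import Pool.Agent.Helper33.QD.M_SUB
import Pool.Agent.Helper36.QD.M_RHU
import Pool.Agent.Helper37.QD.M_FSD
import Pool.Agent.Helper37.QD.M_LLA
import Pool.Agent.Helper37.QD.M_TJ1
import Pool.Agent.Helper38.QD.M_FSG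
import Pool.Agent.Helper39.QD.M_DUN
import Pool.Agent.Helper40.QD.M_DBJ
import Pool.Agent.Helper40.QD.M_TMO
import Pool.Agent.Helper41.QD.M_TCV
import Pool.Agent.Helper42.QD.M_FSU
import Pool.Agent.Helper42.QD.M_LLS
import Pool.Agent.Helper42.QD.M_TLG
import Pool.Agent.Helper44.QD.M_LDY
import Pool.Agent.Helper52.QD.M_SFU
import Pool.Agent.Helper6.QD.M_LCJ
import Pool.Agent.Helper6.QD.M_RMT
import Pool.Agent.Helper64.QD.M_LFR
import Pool.Agent.Helper7.QD.M_FBO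
import Pool.Agent.Helper7.QD.M_SEX
import Pool.Agent.Helper7.QD.M_WMA
import Pool.Agent.Helper72.QD.M_DLI
import Pool.Agent.Helper72.QD.M_LCO
import Pool.Agent.Helper72.QD.M_TPB
import Pool.Agent.Helper72.QD.M_WDG
import Pool.Agent.Helper73.QD.M_FTF
import Pool.Agent.Helper73.QD.M_TJM
import Pool.Agent.Helper75.QD.M_DDR
import Pool.Agent.Helper76.QD.M_DPO
import Pool.Agent.Helper76.QD.M_FSB
import Pool.Agent.Helper79.QD.M_FCO
import Pool.Agent.Helper79.QD.M_LCZ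
import Pool.Agent.Helper79.QD.M_RIJ
import Pool.Agent.Helper8.QD.M_FDG
import Pool.Agent.Helper80.QD.M_LGO
import Pool.Agent.Helper80.QD.M_TJ2
import Pool.Agent.Helper81.QD.M_TGR
import Pool.Agent.Helper82.QD.M_FQI
import Pool.Agent.Helper90.QD.M_DIM
import Pool.Agent.Helper90.QD.M_WNO
import Pool.Agent.Helper97.QD.M_WOU
import Pool.Agent.Helper98.QD.M_DBD
import Pool.Agent.Helper99.QD.M_LMX
import Pool.Agent.Helper99.QD.M_TGE

/-!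
# MP_d112a4_gt, project QD: assembly (generated)
-/

set_option autoImplicit false

namespace Pool.Agent.Helper20.QD

theorem pQD_LLS : Pool.Agent.Helper20.QD.StLLS :=
  Pool.Agent.Helper42.QD.hLLS Pool.Agent.Helper64.QD.hLFR Pool.Agent.Helper26.QD.hLQC Pool.Agent.Helper99.QD.hLMX

theorem pQD_LDY : Pool.Agent.Helper20.QD.StLDY :=
  Pool.Agent.Helper44.QD.hLDY Pool.Agent.Helper64.QD.hLFR Pool.Agent.Helper99.QD.hLMX pQD_LLS

theorem pQD_LLA : Pool.Agent.Helper20.QD.StLLA :=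
  Pool.Agent.Helper37.QD.hLLA Pool.Agent.Helper64.QD.hLFR Pool.Agent.Helper26.QD.hLQC Pool.Agent.Helper99.QD.hLMX pQD_LLS pQD_LDY

theorem pQD_LNF : Pool.Agent.Helper20.QD.StLNF :=
  Pool.Agent.Helper10.QD.hLNF Pool.Agent.Helper26.QD.hLQC

theorem pQD_LCJ : Pool.Agent.Helper20.QD.StLCJ :=
  Pool.Agent.Helper6.QD.hLCJ Pool.Agent.Helper64.QD.hLFR Pool.Agent.Helper26.QD.hLQC Pool.Agent.Helper99.QD.hLMX pQD_LLS

theorem pQD_TCI : Pool.Agent.Helper20.QD.StTCI :=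
  Pool.Agent.Helper10.QD.hTCI Pool.Agent.Helper41.QD.hTCV

theorem pQD_TSA : Pool.Agent.Helper20.QD.StTSA :=
  Pool.Agent.Helper32.QD.hTSA Pool.Agent.Helper72.QD.hTPB

theorem pQD_TJM : Pool.Agent.Helper20.QD.StTJM :=
  Pool.Agent.Helper73.QD.hTJM Pool.Agent.Helper41.QD.hTCV pQD_TCI

theorem pQD_TJ2 : Pool.Agent.Helper20.QD.StTJ2 :=
  Pool.Agent.Helper80.QD.hTJ2 pQD_TCI Pool.Agent.Helper72.QD.hTPB pQD_TSA pQD_TJM

theorem pQD_TMS : Pool.Agent.Helper20.QD.StTMS :=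
  Pool.Agent.Helper11.QD.hTMS Pool.Agent.Helper72.QD.hTPB

theorem pQD_LGO : Pool.Agent.Helper20.QD.StLGO :=
  Pool.Agent.Helper80.QD.hLGO Pool.Agent.Helper26.QD.hLQC pQD_LLA pQD_TJ2 pQD_TMS

theorem pQD_TGR : Pool.Agent.Helper20.QD.StTGR :=
  Pool.Agent.Helper81.QD.hTGR Pool.Agent.Helper41.QD.hTCV

theorem pQD_TGE : Pool.Agent.Helper20.QD.StTGE :=
  Pool.Agent.Helper99.QD.hTGE pQD_TGR Pool.Agent.Helper72.QD.hTPB

theorem pQD_TJ1 : Pool.Agent.Helper20.QD.StTJ1 :=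
  Pool.Agent.Helper37.QD.hTJ1 pQD_TCI Pool.Agent.Helper72.QD.hTPB pQD_TGE pQD_TSA pQD_TJ2

theorem pQD_FSB : Pool.Agent.Helper20.QD.StFSB :=
  Pool.Agent.Helper76.QD.hFSB Pool.Agent.Helper64.QD.hLFR Pool.Agent.Helper26.QD.hLQC Pool.Agent.Helper99.QD.hLMX Pool.Agent.Helper38.QD.hFSG

theorem pQD_FQI : Pool.Agent.Helper20.QD.StFQI :=
  Pool.Agent.Helper82.QD.hFQI Pool.Agent.Helper99.QD.hLMX pQD_FSB

theorem pQD_FLO : Pool.Agent.Helper20.QD.StFLO :=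
  Pool.Agent.Helper29.QD.hFLO Pool.Agent.Helper64.QD.hLFR Pool.Agent.Helper26.QD.hLQC Pool.Agent.Helper99.QD.hLMX pQD_FSB pQD_FQI

theorem pQD_FBO : Pool.Agent.Helper20.QD.StFBO :=
  Pool.Agent.Helper7.QD.hFBO Pool.Agent.Helper64.QD.hLFR Pool.Agent.Helper26.QD.hLQC Pool.Agent.Helper99.QD.hLMX pQD_LLS pQD_FLO

theorem pQD_FSU : Pool.Agent.Helper20.QD.StFSU :=
  Pool.Agent.Helper42.QD.hFSU Pool.Agent.Helper33.QD.hSUB Pool.Agent.Helper64.QD.hLFR Pool.Agent.Helper26.QD.hLQC Pool.Agent.Helper99.QD.hLMX pQD_LLS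

theorem pQD_FCO : Pool.Agent.Helper20.QD.StFCO :=
  Pool.Agent.Helper79.QD.hFCO Pool.Agent.Helper33.QD.hSUB Pool.Agent.Helper64.QD.hLFR Pool.Agent.Helper26.QD.hLQC pQD_LLA pQD_FBO pQD_FSU

theorem pQD_FDG : Pool.Agent.Helper20.QD.StFDG :=
  Pool.Agent.Helper8.QD.hFDG pQD_TCI Pool.Agent.Helper72.QD.hTPB

theorem pQD_FSD : Pool.Agent.Helper20.QD.StFSD :=
  Pool.Agent.Helper37.QD.hFSD pQD_TCI Pool.Agent.Helper72.QD.hTPB pQD_TJ1 pQD_TJ2 Pool.Agent.Helper26.QD.hLQC pQD_LLA pQD_LGO pQD_FCO pQD_FDG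

theorem pQD_TLG : Pool.Agent.Helper20.QD.StTLG :=
  Pool.Agent.Helper42.QD.hTLG Pool.Agent.Helper72.QD.hTPB pQD_TGE pQD_TSA

theorem pQD_TIN : Pool.Agent.Helper20.QD.StTIN :=
  Pool.Agent.Helper18.QD.hTIN pQD_TJ2 pQD_TLG

theorem pQD_RKO : Pool.Agent.Helper20.QD.StRKO :=
  Pool.Agent.Helper18.QD.hRKO Pool.Agent.Helper79.QD.hRIJ

theorem pQD_RMT : Pool.Agent.Helper20.QD.StRMT :=
  Pool.Agent.Helper6.QD.hRMT Pool.Agent.Helper29.QD.hRMO Pool.Agent.Helper36.QD.hRHU Pool.Agent.Helper79.QD.hRIJ pQD_RKO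

theorem pQD_SHO : Pool.Agent.Helper20.QD.StSHO :=
  Pool.Agent.Helper28.QD.hSHO Pool.Agent.Helper41.QD.hTCV Pool.Agent.Helper79.QD.hRIJ Pool.Agent.Helper24.QD.hRAU Pool.Agent.Helper33.QD.hSUB

theorem pQD_LCO : Pool.Agent.Helper20.QD.StLCO :=
  Pool.Agent.Helper72.QD.hLCO Pool.Agent.Helper64.QD.hLFR Pool.Agent.Helper26.QD.hLQC Pool.Agent.Helper99.QD.hLMX pQD_LLS

theorem pQD_LCZ : Pool.Agent.Helper20.QD.StLCZ :=
  Pool.Agent.Helper79.QD.hLCZ Pool.Agent.Helper26.QD.hLQC pQD_LLS pQD_LCO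

theorem pQD_SFU : Pool.Agent.Helper20.QD.StSFU :=
  Pool.Agent.Helper52.QD.hSFU Pool.Agent.Helper33.QD.hSUB Pool.Agent.Helper79.QD.hRIJ pQD_TJ2 pQD_LLA pQD_LCZ

theorem pQD_SEX : Pool.Agent.Helper20.QD.StSEX :=
  Pool.Agent.Helper7.QD.hSEX Pool.Agent.Helper33.QD.hSUB Pool.Agent.Helper64.QD.hLFR Pool.Agent.Helper26.QD.hLQC pQD_LLA pQD_FCO

theorem pQD_SID : Pool.Agent.Helper20.QD.StSID :=
  Pool.Agent.Helper2.QD.hSID pQD_TJ2 pQD_TIN pQD_RMT pQD_SHO pQD_SFU pQD_SEX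

theorem pQD_TMO : Pool.Agent.Helper20.QD.StTMO :=
  Pool.Agent.Helper40.QD.hTMO Pool.Agent.Helper72.QD.hTPB pQD_TSA pQD_TJ2

theorem pQD_WIN : Pool.Agent.Helper20.QD.StWIN :=
  Pool.Agent.Helper26.QD.hWIN Pool.Agent.Helper72.QD.hTPB pQD_TSA pQD_TJ2 pQD_TMO Pool.Agent.Helper33.QD.hSUB Pool.Agent.Helper26.QD.hLQC pQD_LLA pQD_LCJ pQD_LGO

theorem pQD_WOU : Pool.Agent.Helper20.QD.StWOU :=
  Pool.Agent.Helper97.QD.hWOU pQD_TJ1 Pool.Agent.Helper33.QD.hSUB Pool.Agent.Helper79.QD.hRIJ pQD_WIN pQD_SID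

theorem pQD_WDG : Pool.Agent.Helper20.QD.StWDG :=
  Pool.Agent.Helper72.QD.hWDG Pool.Agent.Helper41.QD.hTCV Pool.Agent.Helper72.QD.hTPB Pool.Agent.Helper33.QD.hSUB Pool.Agent.Helper79.QD.hRIJ

theorem pQD_DUN : Pool.Agent.Helper20.QD.StDUN :=
  Pool.Agent.Helper39.QD.hDUN Pool.Agent.Helper11.QD.hPIN

theorem pQD_DNA : Pool.Agent.Helper20.QD.StDNA :=
  Pool.Agent.Helper10.QD.hDNA Pool.Agent.Helper11.QD.hPIN Pool.Agent.Helper33.QD.hSUB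

theorem pQD_DEX : Pool.Agent.Helper20.QD.StDEX :=
  Pool.Agent.Helper10.QD.hDEX Pool.Agent.Helper41.QD.hTCV pQD_TCI Pool.Agent.Helper11.QD.hPIN

theorem pQD_DPO : Pool.Agent.Helper20.QD.StDPO :=
  Pool.Agent.Helper76.QD.hDPO Pool.Agent.Helper72.QD.hDLI

theorem pQD_DIM : Pool.Agent.Helper20.QD.StDIM :=
  Pool.Agent.Helper90.QD.hDIM Pool.Agent.Helper11.QD.hPIN Pool.Agent.Helper33.QD.hSUB pQD_DEX pQD_DUN Pool.Agent.Helper75.QD.hDDR pQD_DPO Pool.Agent.Helper72.QD.hTPB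

theorem pQD_DBD : Pool.Agent.Helper20.QD.StDBD :=
  Pool.Agent.Helper98.QD.hDBD Pool.Agent.Helper11.QD.hPIN

theorem pQD_DET : Pool.Agent.Helper20.QD.StDET :=
  Pool.Agent.Helper24.QD.hDET Pool.Agent.Helper33.QD.hSUB pQD_DUN pQD_DNA pQD_DIM pQD_DBD Pool.Agent.Helper40.QD.hDBJ

theorem pQD_DDI : Pool.Agent.Helper20.QD.StDDI :=
  Pool.Agent.Helper33.QD.hDDI Pool.Agent.Helper33.QD.hSUB

theorem pQD_WMA : Pool.Agent.Helper20.QD.StWMA :=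
  Pool.Agent.Helper7.QD.hWMA Pool.Agent.Helper33.QD.hSUB Pool.Agent.Helper79.QD.hRIJ pQD_TJ1 pQD_SID pQD_WOU pQD_WDG pQD_DET pQD_DDI

theorem pQD_WNO : Pool.Agent.Helper20.QD.StWNO :=
  Pool.Agent.Helper90.QD.hWNO Pool.Agent.Helper72.QD.hTPB Pool.Agent.Helper33.QD.hSUB Pool.Agent.Helper64.QD.hLFR Pool.Agent.Helper26.QD.hLQC pQD_LLS pQD_LLA pQD_LNF pQD_LCJ pQD_LGO pQD_FSD pQD_WMA

theorem pQD_FTF : Pool.Agent.Helper20.QD.StFTF :=
  Pool.Agent.Helper73.QD.hFTF Pool.Agent.Helper33.QD.hSUB pQD_DET pQD_DDI Pool.Agent.Helper26.QD.hLQC pQD_FSU pQD_FCO pQD_FDG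

/-! ### aliases -/

theorem b_DBD : StDBD := pQD_DBD

theorem b_DBJ : StDBJ := Pool.Agent.Helper40.QD.hDBJ

theorem b_DDI : StDDI := pQD_DDI

theorem b_DDR : StDDR := Pool.Agent.Helper75.QD.hDDR

theorem b_DET : StDET := pQD_DET

theorem b_DEX : StDEX := pQD_DEX

theorem b_DIM : StDIM := pQD_DIM

theorem b_DLI : StDLI := Pool.Agent.Helper72.QD.hDLI

theorem b_DNA : StDNA := pQD_DNA

theorem b_DPO : StDPO := pQD_DPO

theorem b_DUN : StDUN := pQD_DUN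

theorem b_FBO : StFBO := pQD_FBO

theorem b_FCO : StFCO := pQD_FCO

theorem b_FDG : StFDG := pQD_FDG

theorem b_FLO : StFLO := pQD_FLO

theorem b_FQI : StFQI := pQD_FQI

theorem b_FSB : StFSB := pQD_FSB

theorem b_FSD : StFSD := pQD_FSD

theorem b_FSG : StFSG := Pool.Agent.Helper38.QD.hFSG

theorem b_FSU : StFSU := pQD_FSU

theorem b_FTF : StFTF := pQD_FTF

theorem b_LCJ : StLCJ := pQD_LCJ

theorem b_LCO : StLCO := pQD_LCO

theorem b_LCZ : StLCZ := pQD_LCZ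

theorem b_LDY : StLDY := pQD_LDY

theorem b_LFR : StLFR := Pool.Agent.Helper64.QD.hLFR

theorem b_LGO : StLGO := pQD_LGO

theorem b_LLA : StLLA := pQD_LLA

theorem b_LLS : StLLS := pQD_LLS

theorem b_LMX : StLMX := Pool.Agent.Helper99.QD.hLMX

theorem b_LNF : StLNF := pQD_LNF

theorem b_LQC : StLQC := Pool.Agent.Helper26.QD.hLQC

theorem b_PIN : StPIN := Pool.Agent.Helper11.QD.hPIN

theorem b_RAU : StRAU := Pool.Agent.Helper24.QD.hRAU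

theorem b_RHU : StRHU := Pool.Agent.Helper36.QD.hRHU

theorem b_RIJ : StRIJ := Pool.Agent.Helper79.QD.hRIJ

theorem b_RKO : StRKO := pQD_RKO

theorem b_RMO : StRMO := Pool.Agent.Helper29.QD.hRMO

theorem b_RMT : StRMT := pQD_RMT

theorem b_SEX : StSEX := pQD_SEX

theorem b_SFU : StSFU := pQD_SFU

theorem b_SHO : StSHO := pQD_SHO

theorem b_SID : StSID := pQD_SID

theorem b_SUB : StSUB := Pool.Agent.Helper33.QD.hSUB

theorem b_TCI : StTCI := pQD_TCI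

theorem b_TCV : StTCV := Pool.Agent.Helper41.QD.hTCV

theorem b_TGE : StTGE := pQD_TGE

theorem b_TGR : StTGR := pQD_TGR

theorem b_TIN : StTIN := pQD_TIN

theorem b_TJ1 : StTJ1 := pQD_TJ1

theorem b_TJ2 : StTJ2 := pQD_TJ2

theorem b_TJM : StTJM := pQD_TJM

theorem b_TLG : StTLG := pQD_TLG

theorem b_TMO : StTMO := pQD_TMO

theorem b_TMS : StTMS := pQD_TMS

theorem b_TPB : StTPB := Pool.Agent.Helper72.QD.hTPB

theorem b_TSA : StTSA := pQD_TSA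

theorem b_WAR : StWAR := Pool.Agent.Helper24.QD.hWAR

theorem b_WCP : StWCP := Pool.Agent.Helper11.QD.hWCP

theorem b_WDG : StWDG := pQD_WDG

theorem b_WIN : StWIN := pQD_WIN

theorem b_WMA : StWMA := pQD_WMA

theorem b_WNO : StWNO := pQD_WNO

theorem b_WOU : StWOU := pQD_WOU

end Pool.Agent.Helper20.QD
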