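import Pool.Agent.Helper20.QD.Defs

/-!
# Project QD, part B: statements, file 2 (Riemann mapping theorem, Poisson integrals)
-/

open Filter Topology Matrix Set Metric
open scoped ComplexConjugate

namespace Pool.Agent.Helper20.QD

open Pool.Agent.Helper35.PM

/-- RMO (about 150 lines)
(Montel.)  A sequence of holomorphic functions on an open set `U` bounded by one has a
subsequence which converges locally uniformly on `U` to a holomorphic function.
Proof: if `closedBall c (2r) ⊆ U` then `|F n z - F n w| ≤ (2/r)|z - w|` on `ball c r` (Cauchy estimate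
for the derivative, or the Schwarz lemma).  Let `Q` be a countable dense subset of `U`; the product
of the closed discs over `Q` is compact and metrisable, so a subsequence converges at every
point of `Q`.  By the Lipschitz bound it is uniformly Cauchy on a neighbourhood of every point of
`U` (cover a small closed ball by finitely many balls of radius `ε` about points of `Q`), so it
converges locally uniformly; the limit is holomorphic
(`TendstoLocallyUniformlyOn.differentiableOn`).
Hypotheses: none. -/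
def StRMO : Prop := ∀ (U : Set ℂ) (F : ℕ → ℂ → ℂ), IsOpen U →
  (∀ n, DifferentiableOn ℂ (F n) U) → (∀ n, ∀ z ∈ U, ‖F n z‖ ≤ 1) →
  ∃ (φ : ℕ → ℕ) (f : ℂ → ℂ), StrictMono φ ∧ DifferentiableOn ℂ f U ∧
    TendstoLocallyUniformlyOn (fun n => F (φ n)) f atTop U

/-- RHU (about 120 lines)
(Hurwitz.)  Let `U` be open and preconnected, `F n` holomorphic and injective on `U`, converging
locally uniformly to `f`.  Then `f` is injective on `U` or constant on `U`.
Proof: suppose `f z1 = f z2`, `z1 ≠ z2` in `U`, and `f` not constant on `U`.  `g z = f z - f z1` is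
holomorphic, not identically zero on the preconnected `U`, `g z2 = 0`: the zero is isolated
(identity theorem), so there is `r < |z1 - z2|` with `closedBall z2 r ⊆ U` and `g ≠ 0` on the circle
`|z - z2| = r`, `|g| ≥ m > 0` there.  `G n z = F n z - F n z1 → g` uniformly on the closed ball, `G n` has no
zero on the closed ball (injectivity), so `1/G n` is holomorphic near it and by the maximum
principle `1/|G n z2| ≤ 2/m` for large `n`, but `G n z2 → 0`: contradiction.
Hypotheses: none. -/
def StRHU : Prop := ∀ (U : Set ℂ) (F : ℕ → ℂ → ℂ) (f : ℂ → ℂ), IsOpen U → IsPreconnected U →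
  (∀ n, DifferentiableOn ℂ (F n) U) → (∀ n, InjOn (F n) U) →
  TendstoLocallyUniformlyOn F f atTop U →
  InjOn f U ∨ ∃ c, ∀ z ∈ U, f z = c

/-- RIJ (about 80 lines)
(Injective holomorphic functions.)  Let `f` be holomorphic and injective on the open set `U`.
Then `deriv f z ≠ 0` for `z ∈ U`, `f '' U` is open, and there is `g` holomorphic on `f '' U` with
`g (f z) = z` for `z ∈ U`.
Proof: suppose `deriv f z0 = 0`; `f` is not constant near `z0`, so `f z - f z0 = (z - z0)^k u z` with `k ≥ 2`,
`u` analytic, `u z0 ≠ 0` (order of the zero, Mathlib `AnalyticAt` order); near `z0`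
`f z - f z0 = (ψ z)^k` with `ψ z = (z - z0) u z ^ (1/k)` (a root of `u` near `z0`), `ψ' z0 ≠ 0`, so `ψ` is onto a
neighbourhood of `0` and `f` takes the same value at two different points near `z0` (the
preimages of `w` and `w e^{2πi/k}`): contradiction.  Then the inverse function theorem
(`HasStrictDerivAt.to_localInverse` or `HasStrictDerivAt.of_local_left_inverse` and the open mapping
theorem for the continuity of the inverse).
Hypotheses: none. -/
def StRIJ : Prop := ∀ (U : Set ℂ) (f : ℂ → ℂ), IsOpen U → DifferentiableOn ℂ f U → InjOn f U →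
  (∀ z ∈ U, deriv f z ≠ 0) ∧ IsOpen (f '' U) ∧
  ∃ g : ℂ → ℂ, DifferentiableOn ℂ g (f '' U) ∧ ∀ z ∈ U, g (f z) = z

/-- RKO (about 200 lines)
(Koebe's step.)  Let `U` be open and preconnected, `p ∈ U`, every continuous zero free function on
`U` has a continuous logarithm.  Let `h` be holomorphic and injective on `U` with values in the
unit disc, `h p = 0`, and suppose that `h '' U` is not the whole disc.  Then there is `k` with the same
properties (holomorphic, injective, values in the disc, `k p = 0`) and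
`‖deriv h p‖ < ‖deriv k p‖`.
Proof: for `|a| < 1` let `B a z = (a - z)/(1 - conj a z)`, an involution of the disc.  Let `w0` be a
point of the disc outside `h '' U`; `u = B w0 ∘ h` is zero free, holomorphic, injective, with values
in the disc; with a continuous logarithm `g` of `u` (it is holomorphic, since `exp` is a local
biholomorphism) put `s = exp (g/2)`, `s² = u`: holomorphic, injective, values in the disc.
`k = B (s p) ∘ s`.  Then `h = Φ ∘ k` with `Φ = B w0 ∘ (·)² ∘ B (s p) : D → D` holomorphic, `Φ 0 = 0`, and `Φ` is not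
injective (the square is not injective on the disc and `B a` is a bijection of the disc), so by
the Schwarz lemma `|Φ' 0| < 1` (equality would make `Φ` a rotation), and
`deriv h p = Φ' 0 * deriv k p` with `deriv h p ≠ 0` (hRIJ).
(Compare koebe_step, B_maps, B_invol in Pool/Agent/Helper64/C3/Koebe.lean.)
Hypotheses: hRIJ. -/
def StRKO : Prop := ∀ (U : Set ℂ) (p : ℂ) (h : ℂ → ℂ), IsOpen U → IsPreconnected U → p ∈ U →
  (∀ u : ℂ → ℂ, ContinuousOn u U → (∀ z ∈ U, u z ≠ 0) → LogOn U u) →
  DifferentiableOn ℂ h U → InjOn h U → MapsTo h U D → h p = 0 → h '' U ≠ D →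
  ∃ k : ℂ → ℂ, DifferentiableOn ℂ k U ∧ InjOn k U ∧ MapsTo k U D ∧ k p = 0 ∧
    ‖deriv h p‖ < ‖deriv k p‖

/-- RMT (about 200 lines)
(Riemann mapping theorem for bounded domains.)  Let `U` be open, bounded, preconnected, `p ∈ U`,
and every continuous zero free function on `U` has a continuous logarithm.  Then there is `f`
holomorphic and injective on the unit disc with `f '' D = U` and `f 0 = p`.
Proof: the family of holomorphic injective `h : U → D` with `h p = 0` contains `(z - p)/R`; the numbers
`‖deriv h p‖` are bounded by `1/r`, `closedBall p r ⊆ U` (Cauchy); take a sequence approaching the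
supremum `M > 0`; by hRMO a subsequence converges locally uniformly to `f0`, the derivatives at `p`
converge, so `‖deriv f0 p‖ = M > 0`, `f0` is not constant, injective by hRHU, `|f0| ≤ 1` and then `< 1` by
the maximum principle (or the open mapping theorem), `f0 p = 0`.  By hRKO `f0 '' U = D`.  `f` is the
inverse of `f0`, holomorphic by hRIJ.
Hypotheses: hRMO hRHU hRIJ hRKO. -/
def StRMT : Prop := ∀ (U : Set ℂ) (p : ℂ), IsOpen U → Bornology.IsBounded U →
  IsPreconnected U → p ∈ U →
  (∀ u : ℂ → ℂ, ContinuousOn u U → (∀ z ∈ U, u z ≠ 0) → LogOn U u) →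
  ∃ f : ℂ → ℂ, DifferentiableOn ℂ f D ∧ InjOn f D ∧ f '' D = U ∧ f 0 = p

/-- RAU (about 150 lines)
(Automorphisms of the disc with a square root of the derivative.)  Let `h` be holomorphic and
injective on `D` with `h '' D = D`, and `j` continuous on `D` with `j z ^ 2 * deriv h z = 1` there.  Then
there is `A ∈ SU(1,1)` with `mob A z = h z` and `den A z = j z` for all `z ∈ D`.
Proof: `a = h 0`; by the Schwarz lemma applied to `B a ∘ h` and its inverse, `h z = e^{iθ}(z - b)/(1 - conj b z)`
for some `|b| < 1`.  With `c = (1 - |b|²)^{-1/2}` and `e^{iθ/2}`: `A0 = c !![e^{iθ/2}, -b e^{iθ/2}; -conj b e^{-iθ/2},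
e^{-iθ/2}]` is in `SU(1,1)`, `mob A0 = h`, `deriv h = (den A0)^{-2}`, so `(j/den A0)² = 1` on `D`; `j/den A0` is
continuous on the connected set `D`, so it is constantly `1` or constantly `-1`; take `A = A0` or `A = -A0`.
Hypotheses: none. -/
def StRAU : Prop := ∀ (h j : ℂ → ℂ), DifferentiableOn ℂ h D → InjOn h D → h '' D = D →
  ContinuousOn j D → (∀ z ∈ D, j z ^ 2 * deriv h z = 1) →
  ∃ A : SL, IsSU A ∧ ∀ z ∈ D, mob A z = h z ∧ den A z = j z

/-- Poisson kernel of the unit disc. -/
noncomputable def PK (z ζ : ℂ) : ℝ := (1 - ‖z‖ ^ 2) / ‖ζ - z‖ ^ 2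

/-- Poisson integral (mean over the circle). -/
noncomputable def PI (u : ℂ → ℂ) (z : ℂ) : ℂ :=
  ((2 * Real.pi : ℝ) : ℂ)⁻¹ * ∫ t in (0 : ℝ)..(2 * Real.pi),
    (PK z (Complex.exp (t * Complex.I)) : ℂ) * u (Complex.exp (t * Complex.I))

/-- PIN (about 150 lines)
(Conformal invariance of the Poisson integral.)  For `A ∈ SU(1,1)`, `z ∈ D` and `u` continuous on the
unit circle: `PI (u ∘ mob A) z = PI u (mob A z)`.  Also `PI 1 z = 1`, `PI u 0` is the circle mean, the
kernel is positive.
Proof: both sides are continuous linear functionals of `u` for the sup norm (the kernel is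
positive with mean one).  The functions `ζ^n`, `n ∈ ℤ`, span a dense subspace of `C(circle)` (Fourier
monomials, `span_fourier_closure_eq_top`).  For `u = ζ^n`, `n ≥ 0`: `mob A` is holomorphic on a
neighbourhood of the closed disc, and the Poisson formula
(`DiffContOnCl.circleAverage_poissonKernel_smul`, Mathlib/Analysis/Complex/Poisson.lean) gives
`PI ((mob A)^n) z = (mob A z)^n = PI (ζ^n) (mob A z)`.  For `n < 0`: on the circle `ζ^n = conj (ζ^{-n})`,
`|mob A ζ| = 1`; take complex conjugates.
Hypotheses: none. -/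
def StPIN : Prop :=
  (∀ (A : SL) (u : ℂ → ℂ), IsSU A → ContinuousOn u SS → ∀ z ∈ D,
    PI (fun ζ => u (mob A ζ)) z = PI u (mob A z)) ∧
  (∀ z ∈ D, PI (fun _ => 1) z = 1) ∧
  (∀ z ∈ D, ∀ ζ ∈ SS, 0 < PK z ζ)

/-- SUB (about 120 lines)
(Elementary facts about `SU(1,1)`.)  Let `A ∈ SU(1,1)`.  (1) the denominator does not vanish on the
closed disc; `mob A` maps `D` onto `D` and the circle onto the circle, bijectively, with inverse
`mob A⁻¹`; `A⁻¹` and products are in `SU(1,1)`.  (2) for every `a ∈ D` there is `A ∈ SU(1,1)` with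
`mob A 0 = a`.  (3) composition: `mob (A * B) z = mob A (mob B z)` and `den (A * B) z = den A (mob B z) * den B z`
for all `A, B ∈ SL` and `z` with `den B z ≠ 0`.  (4) `mob A` is holomorphic on a neighbourhood of the
closed disc with derivative `(den A z)^{-2}`.  (5) `‖mob A z‖ ≤ r`, `‖z‖ ≤ r`, `r < 1` give a bound
`hs A ≤ C r`: precisely `hs A ≤ 8/(1-r)^2`.
Proof: `A = !![a, b; conj b, conj a]`, `|a|² - |b|² = 1`; `|conj b z + conj a| ≥ |a| - |b| > 0`;
`1 - |mob A z|² = (1 - |z|²)/|den A z|²`.  (5): `|den A z|² = (1-|z|²)/(1-|mob A z|²) ≤ 1/(1 - r²)`,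
`|den A z| ≥ |a| - |b||z| ≥ (1-r)|a|`, so `hs A = 2(|a|²+|b|²) ≤ 4|a|² ≤ 4/((1-r)²(1-r²))`: use the
bound `hs A ≤ 8/(1-r)^3`.
Hypotheses: none. -/
def StSUB : Prop :=
  (∀ A : SL, IsSU A → IsSU A⁻¹ ∧ (∀ z ∈ DD, den A z ≠ 0) ∧ BijOn (mob A) D D ∧
    BijOn (mob A) SS SS ∧ (∀ z ∈ DD, mob A⁻¹ (mob A z) = z)) ∧
  (∀ A B : SL, IsSU A → IsSU B → IsSU (A * B)) ∧
  (∀ a ∈ D, ∃ A : SL, IsSU A ∧ mob A 0 = a) ∧
  (∀ (A B : SL) (z : ℂ), den B z ≠ 0 →
    mob (A * B) z = mob A (mob B z) ∧ den (A * B) z = den A (mob B z) * den B z) ∧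
  (∀ (A : SL) (z : ℂ), den A z ≠ 0 → HasDerivAt (mob A) ((den A z ^ 2)⁻¹) z) ∧
  (∀ (A : SL) (z : ℂ) (r : ℝ), IsSU A → r < 1 → ‖z‖ ≤ r → ‖mob A z‖ ≤ r →
    hs (A : Mat) ≤ 8 / (1 - r) ^ 3)

end Pool.Agent.Helper20.QD
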