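import Pool.Agent.Helper20.QD.St4

/-!
# Project QD, part B: statements, files 5 and 7 (one side, assembly)
-/

open Filter Topology Matrix Set Metric MeasureTheory
open scoped ComplexConjugate ComplexOrder

namespace Pool.Agent.Helper20.QD

open Pool.Agent.Helper35.PM

/-- The conformal map of the disc onto the inside of the limit set, with its Fuchsian group. -/
structure OneSide {Γ : Type} [Group Γ] (ρ σ : Γ →* SL) (f : ℂ → ℂ) : Prop where
  cont : ContinuousOn f DD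
  hol : DifferentiableOn ℂ f D
  bij : BijOn f D (inn (Lam ρ))
  bijS : BijOn f SS (Lam ρ)
  fuch : Fuch σ
  eqv : ∀ γ, ∀ z ∈ DD, den (ρ γ) (f z) ≠ 0 ∧ f (mob (σ γ) z) = mob (ρ γ) (f z)

/-- The conformal map of the outside of the disc onto the outside of the limit set. -/
structure OutSide {Γ : Type} [Group Γ] (ρ σ : Γ →* SL) (F : ℂ → ℂ) : Prop where
  cont : ContinuousOn F {z : ℂ | 1 ≤ ‖z‖}
  hol : DifferentiableOn ℂ F {z : ℂ | 1 < ‖z‖}
  bij : BijOn F {z : ℂ | 1 < ‖z‖} (out (Lam ρ))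
  bijS : BijOn F SS (Lam ρ)
  asy : ∃ a c : ℂ, a ≠ 0 ∧ Tendsto (fun z : ℂ => F z - a * z - c) (Bornology.cobounded ℂ) (𝓝 0)
  fuch : Fuch σ
  eqv : ∀ γ, ∀ z : ℂ, 1 ≤ ‖z‖ → (den (σ γ) z = 0 ↔ den (ρ γ) (F z) = 0) ∧
    (den (σ γ) z ≠ 0 → 1 ≤ ‖mob (σ γ) z‖ ∧ F (mob (σ γ) z) = mob (ρ γ) (F z))

/-- SHO (about 250 lines)
(The Fuchsian representation.)  Let `ρ` be `Good`, `f` holomorphic and injective on `D` with
`f '' D = inn (Lam ρ)`.  There is a homomorphism `σ : Γ → SL` with values in `SU(1,1)` and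
`f (mob (σ γ) z) = mob (ρ γ) (f z)` on `D`.
Proof: `deriv f ≠ 0` on `D` (hRIJ), so `deriv f = s²` with `s` continuous (even holomorphic) and zero
free on `D` (hTCV; `s = exp(g/2)`).  `g` the holomorphic inverse of `f` (hRIJ).  For `γ`, with `A = ρ γ`:
`h z = g (mob A (f z))` is holomorphic, injective, onto `D` (`mob A` maps `inn (Lam ρ)` into itself for `γ` and
`γ⁻¹`), and `j z = den A (f z) * s (h z) / s z` is continuous with `j² h' = 1`
(`h' = den(A)(f z)^{-2} f'(z)/f'(h z)`, hSUB).  hRAU gives `A' ∈ SU(1,1)` with `mob A' = h`, `den A' = j` on `D`;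
`A'` is determined by this (the denominator gives the second row, then `mob` the first).  For
`γ, δ`: `j_{γδ}(z) = j_γ(h_δ z) j_δ(z)` and `h_{γδ} = h_γ ∘ h_δ` by the cocycle rule hSUB (3) for `ρ`, so
`A'_{γδ} = A'_γ A'_δ` by hSUB (3) and uniqueness: `σ` is a homomorphism.
Hypotheses: hTCV hRIJ hRAU hSUB. -/
def StSHO : Prop := ∀ (Γ : Type) [Group Γ] (ρ : Γ →* SL) (f : ℂ → ℂ), Good ρ →
  DifferentiableOn ℂ f D → InjOn f D → f '' D = inn (Lam ρ) →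
  ∃ σ : Γ →* SL, (∀ γ, IsSU (σ γ)) ∧ ∀ γ, ∀ z ∈ D, f (mob (σ γ) z) = mob (ρ γ) (f z)

/-- SFU (about 150 lines)
(It is discrete and cocompact.)  In the situation of hSHO `σ` is `Fuch`.
Proof: discreteness: if `hs (σ γ) ≤ X` then `‖mob (σ γ) 0‖ ≤ r < 1` (`|b/conj a|² = 1 - 1/|a|²`), so
`mob (ρ γ) (f 0) = f (mob (σ γ) 0)` lies in the compact set `f '' closedBall 0 r ⊆ inn (Lam ρ)`, at distance
`≥ ε` from `Lam ρ`; by hLLA (2) with `K = {f 0}` this holds for finitely many `γ` only.  Cocompactness: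
let `ε` be from hLCZ; `{w ∈ inn (Lam ρ) | ∀ l ∈ Lam ρ, ε ≤ ‖w - l‖}` is compact (hTJ2: bounded, and closed since
the frontier of `inn` is contained in `Lam ρ`), so its preimage under `f` is compact (`f : D → inn` is a
homeomorphism, hRIJ) and contained in `closedBall 0 r`, `r < 1`; for `z ∈ D` take `γ` from hLCZ for `f z`.
Hypotheses: hSUB hRIJ hTJ2 hLLA hLCZ. -/
def StSFU : Prop := ∀ (Γ : Type) [Group Γ] (ρ σ : Γ →* SL) (f : ℂ → ℂ), Good ρ →
  DifferentiableOn ℂ f D → InjOn f D → f '' D = inn (Lam ρ) → (∀ γ, IsSU (σ γ)) →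
  (∀ γ, ∀ z ∈ D, f (mob (σ γ) z) = mob (ρ γ) (f z)) → Fuch σ

/-- SEX (about 250 lines)
(Boundary values.)  In the situation of hSHO, `σ` `Fuch`, there is `F` equal to `f` on `D` with
`OneSide ρ σ F`.
Proof: `b` from hFCO; `F = f` on `D`, `F = b` on `SS` (and outside anything).  Continuity at `ζ ∈ SS` (along
`SS` it is that of `b`): let `z_n ∈ D`, `z_n → ζ`; by cocompactness `z_n = mob (σ γ_n) u_n` with `‖u_n‖ ≤ r`.
As in hFSU `mob (σ γ_n) 0 → ζ` (`|mob A u - mob A 0| ≤ C_r (1 - |mob A 0|²)`, and `|mob A 0| → 1` because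
`|mob A u_n| → 1`), so `orb ρ γ_n → Qp (b ζ)`; and `f z_n = mob (ρ γ_n) (f u_n)` with `f u_n` in the compact set
`K = f '' closedBall 0 r`, disjoint from `Lam ρ`; `hs (ρ γ_n) → ∞` so `γ_n` leaves every finite set and hLLA (2)
gives `l_n ∈ Lam ρ` with `orb ρ γ_n` close to `Qp l_n` and `f z_n` close to `l_n`: `l_n → b ζ`, `f z_n → b ζ`.
(Write it with ε and δ: `b` is uniformly continuous etc.; or by sequences with
`tendsto_of_subseq_tendsto`.)  `BijOn F D (inn)`, `BijOn F SS (Lam ρ)` are clear; equivariance on `D` and on `SS`;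
denominators: `Good.side` and hLLA (1).
Hypotheses: hSUB hLFR hLQC hLLA hFCO. -/
def StSEX : Prop := ∀ (Γ : Type) [Group Γ] (ρ σ : Γ →* SL) (f : ℂ → ℂ), Good ρ →
  DifferentiableOn ℂ f D → InjOn f D → f '' D = inn (Lam ρ) → Fuch σ →
  (∀ γ, ∀ z ∈ D, f (mob (σ γ) z) = mob (ρ γ) (f z)) →
  ∃ F : ℂ → ℂ, (∀ z ∈ D, F z = f z) ∧ OneSide ρ σ F

/-- SID (about 60 lines)
(One side.)  For `ρ` `Good` and `p ∈ inn (Lam ρ)` there are `σ`, `f` with `OneSide ρ σ f`, `f 0 = p`.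
Proof: hTJ2, hTIN, hRMT for `U = inn (Lam ρ)`; hSHO, hSFU, hSEX.
Hypotheses: hTJ2 hTIN hRMT hSHO hSFU hSEX. -/
def StSID : Prop := ∀ (Γ : Type) [Group Γ] (ρ : Γ →* SL), Good ρ → ∀ p ∈ inn (Lam ρ),
  ∃ (σ : Γ →* SL) (f : ℂ → ℂ), OneSide ρ σ f ∧ f 0 = p

/-- WIN (about 200 lines)
(Inversion.)  Let `ρ` be `Good`, `p ∈ inn (Lam ρ)`.  There is `B ∈ SL` with `den B z = I (z - p)`,
`mob B z = 1/(z - p)` for `z ≠ p`, `cj B ρ` is `Good`, `Lam (cj B ρ) = (1/(· - p)) '' Lam ρ`,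
`inn (Lam (cj B ρ)) = {0} ∪ (1/(· - p)) '' out (Lam ρ)`.
Proof: `B = !![0, I; I, -I p]` (determinant `-I² = 1`).  `CC`: hLCJ.  `limitSet (cj B ρ) = act B '' (Qp '' Lam ρ) =
Qp '' M (Lam ρ)` with `M z = 1/(z - p)` (hLQC; `p ∉ Lam ρ`), so `Qinf` is not in it and `Lam = M '' Lam ρ`; the
description of `inn` is hTMO.  `Good (cj B ρ)` by hLGO (3) (the limit set is homeomorphic to the circle by
hLCJ and `Qp`, `Param`): we need a logarithm of `den (B A B⁻¹)` on `M '' Lam ρ`, `A = ρ γ`.  For `w = M z`,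
`z ∈ Lam ρ`: `den (B A B⁻¹) w = den B (mob A z) * den A z * den B⁻¹ w` (hSUB (3)), `den B⁻¹ w = 1/den B z`, and
`den B (mob A z) = I (mob A z - p) = I (z - p')/(den A z den A p')` with `p' = mob A⁻¹ p ∈ inn (Lam ρ)`
(`Good.side` for `γ⁻¹`).  So `den (B A B⁻¹) (M z) = ((z - p')/(z - p)) / den A p'`, which has a logarithm on `Lam ρ`
by hTSA (1) and hTJ2 (`inn` preconnected); transport by `M` (hTPB (2)).
Hypotheses: hTPB hTSA hTJ2 hTMO hSUB hLQC hLLA hLCJ hLGO. -/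
def StWIN : Prop := ∀ (Γ : Type) [Group Γ] (ρ : Γ →* SL) (p : ℂ), Good ρ → p ∈ inn (Lam ρ) →
  ∃ B : SL, (∀ z, den B z = Complex.I * (z - p)) ∧ (∀ z, z ≠ p → mob B z = 1 / (z - p)) ∧
    Good (cj B ρ) ∧ Lam (cj B ρ) = (fun z => 1 / (z - p)) '' Lam ρ ∧
    inn (Lam (cj B ρ)) = {0} ∪ (fun z => 1 / (z - p)) '' out (Lam ρ)

/-- WOU (about 300 lines)
(The outside.)  For `ρ` `Good` there are `σ, F` with `OutSide ρ σ F`.
Proof: `inn (Lam ρ)` is nonempty (hTJ1); take `p` in it, `B` from hWIN, `ρ' = cj B ρ`, and `σ', f'` from hSID for `ρ'`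
and the point `0`: `f' 0 = 0`.  For `‖z‖ ≥ 1` put `F z = p + 1/f' (1/z)` (`f' (1/z) ≠ 0` by injectivity of `f'` on the
closed disc: `f'` maps `D` onto `inn`, `SS` onto `Lam`, which are disjoint).  It is continuous, holomorphic for
`‖z‖ > 1`, bijective onto `out (Lam ρ)`, resp. `Lam ρ`, because `M⁻¹ w = p + 1/w`.  With `a' = deriv f' 0 ≠ 0`
(hRIJ), `1/f' w = 1/(a' w) + c' + O(w)` at `0` (the function `w/f' w` is holomorphic near `0`), so
`F z = z/a' + (p + c') + O(1/z)`.  Group: `J = !![0, I; I, 0]`, `σ γ = J σ'(γ) J⁻¹`, which is the entrywise complex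
conjugate of `σ' γ` (for `A ∈ SU(1,1)`); so it is in `SU(1,1)`, `hs` is the same (discrete), and
`mob (σ γ) z = conj (mob (σ' γ) (conj z))` (cocompact).  For `‖z‖ ≥ 1`, `w = 1/z`, `u = mob (σ' γ) w ∈ DD`:
`u = 0` iff `den (σ γ) z = 0`, otherwise `mob (σ γ) z = 1/u`; `f' u = mob (ρ' γ) (f' w)`, `f' w = mob B (F z)`,
`ρ' γ = B A B⁻¹` with `A = ρ γ`, so in terms of the action on the sphere `A (F z) = B⁻¹ (f' u)`: it is `∞`
iff `f' u = 0` iff `u = 0`, otherwise `mob A (F z) = p + 1/f' u = F (1/u)`.  (Use hSUB (3).)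
Hypotheses: hTJ1 hSUB hRIJ hWIN hSID. -/
def StWOU : Prop := ∀ (Γ : Type) [Group Γ] (ρ : Γ →* SL), Good ρ →
  ∃ (σ : Γ →* SL) (F : ℂ → ℂ), OutSide ρ σ F

/-- WDG (about 200 lines)
(The welding has degree one.)  Let `OneSide ρ τ f`, `OutSide ρ σ F`, `ρ` `Good`.  There is `φ` with `Deg1 φ`,
`f (φ ζ) = F ζ` and `φ (mob (σ γ) ζ) = mob (τ γ) (φ ζ)` on the circle.
Proof: `φ = f⁻¹ ∘ F` on `SS` (continuous: `f` is a homeomorphism of the compact circle onto `Lam ρ`),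
injective, equivariant by injectivity of `f` on `SS`.  Degree: `p = f 0 ∈ inn (Lam ρ)`.  (i)
`k z = (f z - f 0)/z`, `k 0 = deriv f 0`, is continuous and zero free on `DD` (`dslope`, injectivity of `f` on
`DD`, `deriv f 0 ≠ 0` by hRIJ), so it has a logarithm on `DD` (hTCV): `(f ζ - p) ζ⁻¹` has one on `SS`.  (ii)
`k' w = (F (1/w) - p) w` for `0 < ‖w‖ ≤ 1`, `k' 0 = a`: continuous (asymptotics) and zero free (`F z ≠ p` because
`F z ∈ out ∪ Lam ρ`): logarithm on `DD`; pull back by `ζ ↦ ζ⁻¹`: `(F ζ - p) ζ⁻¹` has a logarithm on `SS`.  (iii)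
pull back (i) by `φ`: `(F ζ - p) (φ ζ)⁻¹` has a logarithm; divide: `φ ζ ζ⁻¹` has one.
Hypotheses: hTCV hTPB hSUB hRIJ. -/
def StWDG : Prop := ∀ (Γ : Type) [Group Γ] (ρ σ τ : Γ →* SL) (f F : ℂ → ℂ), Good ρ →
  OneSide ρ τ f → OutSide ρ σ F → ∃ φ : ℂ → ℂ, Deg1 φ ∧ (∀ ζ ∈ SS, f (φ ζ) = F ζ) ∧
    ∀ γ, ∀ ζ ∈ SS, φ (mob (σ γ) ζ) = mob (τ γ) (φ ζ)

/-- The quasiconformal model of a quasifuchsian representation: `W` is a homeomorphism of the
plane, conformal outside the disc, `W = f ∘ E` inside with `f` conformal and `E` a `C^1`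
diffeomorphism of the disc of dilatation at most `k`, conjugating the Fuchsian group `σ` to `ρ`. -/
structure Bers {Γ : Type} [Group Γ] (ρ σ τ : Γ →* SL) (W f E : ℂ → ℂ) (k : ℝ) (a c : ℂ) :
    Prop where
  k0 : 0 ≤ k
  k1 : k < 1
  a0 : a ≠ 0
  fs : Fuch σ
  one : OneSide ρ τ f
  homeo : IsHomeomorph W
  asy : Tendsto (fun z : ℂ => W z - a * z - c) (Bornology.cobounded ℂ) (𝓝 0)
  hol : DifferentiableOn ℂ W {z : ℂ | 1 < ‖z‖}
  inside : ∀ z ∈ DD, W z = f (E z)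
  econt : ContinuousOn E DD
  ebij : BijOn E D D
  ebijS : BijOn E SS SS
  ec1 : ContDiffOn ℝ 1 E D
  edil : ∀ z ∈ D, dz E z ≠ 0 ∧ ‖dzb E z‖ ≤ k * ‖dz E z‖
  c1 : ContDiffOn ℝ 1 W D
  dil : ∀ z ∈ D, dz W z ≠ 0 ∧ ‖dzb W z‖ ≤ k * ‖dz W z‖
  imD : W '' D = inn (Lam ρ)
  imS : W '' SS = Lam ρ
  imO : W '' {z : ℂ | 1 < ‖z‖} = out (Lam ρ)
  eqvE : ∀ γ, ∀ z ∈ DD, E (mob (σ γ) z) = mob (τ γ) (E z)
  eqv : ∀ γ, ∀ z : ℂ, (den (σ γ) z = 0 ↔ den (ρ γ) (W z) = 0) ∧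
    (den (σ γ) z ≠ 0 → W (mob (σ γ) z) = mob (ρ γ) (W z))

/-- WMA (about 250 lines)
(Assembly.)  For `ρ` `Good` there are `σ, τ, W, f, E, k, a, c` with `Bers ρ σ τ W f E k a c`.
Proof: `OneSide ρ τ f` (hSID, hTJ1), `OutSide ρ σ F` (hWOU), `φ` (hWDG), `E` from hDET for `φ` (naturality with
`A = τ γ`, `B = σ γ`), `k` from hDDI.  `W z = f (E z)` for `‖z‖ ≤ 1`, `W z = F z` for `‖z‖ > 1` (they agree on the
circle: `f (φ ζ) = F ζ`).  Continuous (two closed sets), injective and onto since the plane is the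
disjoint union of `inn (Lam ρ)`, `Lam ρ`, `out (Lam ρ)`; proper by the asymptotics (`‖W z‖ → ∞`), so it is a
homeomorphism (continuous, proper/closed, bijective).  `dz W = f'(E z) dz E`, `dzb W = f'(E z) dzb E` on `D`,
`f' ≠ 0` (hRIJ).  Equivariance: for `‖z‖ ≤ 1` denominators do not vanish on both sides (hSUB,
`OneSide.eqv`); for `‖z‖ ≥ 1` `OutSide.eqv`.
Hypotheses: hSUB hRIJ hTJ1 hSID hWOU hWDG hDET hDDI. -/
def StWMA : Prop := ∀ (Γ : Type) [Group Γ] (ρ : Γ →* SL), Good ρ →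
  ∃ (σ τ : Γ →* SL) (W f E : ℂ → ℂ) (k : ℝ) (a c : ℂ), Bers ρ σ τ W f E k a c

/-- WNO (about 200 lines)
(Normalisation and the general case.)  Let `ρ` be `CC` with limit set homeomorphic to the circle, and
`Sides ρ` or there is a `Fuch` representation of `Γ`.  Then for some `B ∈ SL` there is a model
`Bers (cj B ρ) σ τ W f E k 1 0`.
Proof: choose a point of `sph` outside the limit set (hLNF, hLLS) and `B0` which moves it to `Qinf` (hLCJ);
`ρ0 = cj B0 ρ` is `CC`, `Qinf ∉ limitSet ρ0`, homeomorphic to the circle; `Good ρ0` by hLGO with `Sides ρ0`, or by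
hFSD.  hWMA gives `W` with constants `a, c`.  Let `B1 = !![s⁻¹, -c s⁻¹; 0, s]`, `s² = a`, `mob B1 z = (z - c)/a`,
`den B1 = s`; `ρ1 = cj B1 ρ0`, `B = B1 B0`.  `Lam ρ1 = mob B1 '' Lam ρ0`, `inn` and `out` transform by the affine
map (`LogOn` pulled back), and all fields of `Bers` for `W1 = (W - c)/a`, `f1 = (f - c)/a`, the same
`σ, τ, E, k` follow: `den (B1 A B1⁻¹) (mob B1 z) = den A z` (hSUB (3)).
Hypotheses: hTPB hSUB hLFR hLQC hLLS hLLA hLNF hLCJ hLGO hFSD hWMA. -/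
def StWNO : Prop := ∀ (Γ : Type) [Group Γ] (ρ : Γ →* SL), CC ρ →
  Nonempty (limitSet ρ ≃ₜ Circle) → (Sides ρ ∨ ∃ σ0 : Γ →* SL, Fuch σ0) →
  ∃ (B : SL) (σ τ : Γ →* SL) (W f E : ℂ → ℂ) (k : ℝ), Bers (cj B ρ) σ τ W f E k 1 0

/-- WAR (about 150 lines)
(Finite area.)  Let `W` be `C^1` and injective on `D` with bounded image and
`‖dzb W‖ ≤ k ‖dz W‖`, `k < 1`.  Then `‖dz W‖²` is integrable on `D` with
`(1 - k²) ∫_D ‖dz W‖² ≤ area (W '' D)`; in particular `dzb W` and `dz W` are in `L²(D)`.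
Proof: the Jacobian determinant of `W` is `‖dz W‖² - ‖dzb W‖² ≥ (1 - k²)‖dz W‖²`; area formula for injective maps
(`MeasureTheory.lintegral_abs_det_fderiv_eq_addHaar_image`).
Hypotheses: none. -/
def StWAR : Prop := ∀ (W : ℂ → ℂ) (k : ℝ), 0 ≤ k → k < 1 → ContDiffOn ℝ 1 W D → InjOn W D →
  Bornology.IsBounded (W '' D) → (∀ z ∈ D, ‖dzb W z‖ ≤ k * ‖dz W z‖) →
  IntegrableOn (fun z => ‖dz W z‖ ^ 2) D ∧
  (1 - k ^ 2) * ∫ z in D, ‖dz W z‖ ^ 2 ≤ (volume (W '' D)).toReal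

/-- WCP (about 300 lines)
(Cauchy-Pompeiu: `W` is the principal solution.)  Let `W : ℂ → ℂ` be continuous, holomorphic outside
the closed disc, `C^1` on `D` with `‖dzb W‖²` integrable on `D`, `W z - z → 0` at infinity.  Then for
every `z`: `W z - z = (1/π) ∫_D dzb W t/(z - t) dA(t)`.
Proof: `h = dzb W 1_D ∈ L²` with compact support; its Cauchy transform `C h (z) = (1/π)∫ h t/(z - t)` is
continuous on the plane (`1/t ∈ L^q_loc`, `q < 2`: `h ∈ L²` is not enough for the crude bound, but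
`∫ |h| |1/(z-t) - 1/(z'-t)|` is small by Cauchy-Schwarz: `1/(z-t)` is not in `L²`; so use instead: both
sides are compared for `‖z‖ ≠ 1` first, see below, and `dzb W` is moreover in `L^∞_loc`), tends to `0` at
infinity.  For `r < 1`: Cauchy-Pompeiu on `‖t‖ < r` (Green's formula for `C^1` functions: divergence
theorem on the disc or on annuli in polar coordinates): `(1/2πi)∮_{‖t‖=r} W t/(t - z) dt + (1/π) ∫_{‖t‖<r}
dzb W t/(z - t) dA` equals `W z` if `‖z‖ < r` and `0` if `‖z‖ > r`.  Let `r → 1` (`W` uniformly continuous on `DD`;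
for `‖z‖ ≠ 1` dominated convergence).  Outside: `(1/2πi)∮_{‖t‖=1} W t/(t - z) dt` equals `z` if `‖z‖ < 1` and `z - W z` if
`‖z‖ > 1` (Cauchy's theorem in `1 < ‖t‖ < R` and `W t = t + o(1)`).  Together: the formula for `‖z‖ ≠ 1`.
Statement below only for `‖z‖ ≠ 1`.
Hypotheses: none. -/
def StWCP : Prop := ∀ W : ℂ → ℂ, Continuous W → DifferentiableOn ℂ W {z : ℂ | 1 < ‖z‖} →
  ContDiffOn ℝ 1 W D → IntegrableOn (fun z => ‖dzb W z‖ ^ 2) D →
  Tendsto (fun z : ℂ => W z - z) (Bornology.cobounded ℂ) (𝓝 0) →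
  ∀ z : ℂ, ‖z‖ ≠ 1 → IntegrableOn (fun t => dzb W t / (z - t)) D ∧
    W z - z = ((Real.pi : ℝ) : ℂ)⁻¹ * ∫ t in D, dzb W t / (z - t)

end Pool.Agent.Helper20.QD
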