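import Pool.Agent.Helper20.QD.St1
import Pool.Agent.Helper20.QD.St2

/-!
# Project QD, part B: statements, file 6 (the Douady-Earle extension)
-/

open Filter Topology Matrix Set Metric
open scoped ComplexConjugate

namespace Pool.Agent.Helper20.QD

open Pool.Agent.Helper35.PM

/-- An orientation preserving homeomorphism of the unit circle (degree one). -/
def Deg1 (φ : ℂ → ℂ) : Prop :=
  ContinuousOn φ SS ∧ InjOn φ SS ∧ MapsTo φ SS SS ∧ LogOn SS (fun ζ => φ ζ * ζ ^ (-1 : ℤ))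

/-- The automorphism of the disc which sends `w` to `0`. -/
noncomputable def TT (w η : ℂ) : ℂ := (η - w) / (1 - conj w * η)

/-- The function whose zero `w` is the conformal barycentre of the image under `φ` of harmonic
measure at `z`. -/
noncomputable def FF (φ : ℂ → ℂ) (z w : ℂ) : ℂ := PI (fun ζ => TT w (φ ζ)) z

/-- DLI (about 100 lines)
(Lift.)  Let `φ` be an orientation preserving homeomorphism of the circle.  There is a continuous
strictly increasing `Φ : ℝ → ℝ` with `φ (e^{is}) = e^{iΦ s}` and `Φ (s + 2π) = Φ s + 2π`.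
Proof: `φ ζ ζ⁻¹ = exp (g ζ)`, of modulus one on the circle, so `g = i h` with `h` real and continuous on
the circle; `Φ s = s + h (e^{is})`.  It is continuous, `Φ (s+2π) = Φ s + 2π`, and injective: if `Φ s = Φ t` then
`φ (e^{is}) = φ (e^{it})`, so `s = t + 2πk` and `Φ s = Φ t + 2πk`, `k = 0`.  A continuous injective function on
`ℝ` is strictly monotone or antitone (`Continuous.strictMono_of_inj`), and `Φ (2π) > Φ 0`.
Hypotheses: none. -/
def StDLI : Prop := ∀ φ : ℂ → ℂ, Deg1 φ → ∃ Φ : ℝ → ℝ, Continuous Φ ∧ StrictMono Φ ∧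
  (∀ s : ℝ, Φ (s + 2 * Real.pi) = Φ s + 2 * Real.pi) ∧
  ∀ s : ℝ, φ (Complex.exp (s * Complex.I)) = Complex.exp (Φ s * Complex.I)

/-- DPO (about 250 lines)
(Douady-Earle positivity.)  Let `φ` be an orientation preserving homeomorphism of the circle.
Then the circle means satisfy `|mean (φ ζ ζ)| < |mean (φ ζ conj ζ)|` and `|mean (φ ζ ^ 2)| < 1`.
Proof: let `a = mean (φ conj ζ)`, `b = mean (φ ζ)`, `Φ` as in hDLI.  Writing the squares as double integrals,
`|a|² - |b|² = (1/4π²) ∬ e^{i(Φ s - Φ t)} (e^{-i(s-t)} - e^{i(s-t)}) ds dt = (1/2π²) ∬ sin(Φ s - Φ t) sin(s - t) ds dt`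
(real part; the imaginary part is antisymmetric).  With `s = t + u` this is
`(1/2π²) ∫_0^{2π} sin u G(u) du`, `G u = ∫_0^{2π} sin(Φ(t+u) - Φ t) dt` (periodicity), `= (1/2π²) ∫_0^π sin u (G u - G (u+π)) du`.
For `0 < u < π`, shifting `t` by `π` in half of each integral (periodic integrands),
`G u - G (u+π) = (1/2) ∫_0^{2π} [sin a1 + sin a2 + sin a3 + sin a4] dt` with `a1 = Φ(t+u) - Φ t`, `a2 = Φ(t+π) - Φ(t+u)`,
`a3 = Φ(t+π+u) - Φ(t+π)`, `a4 = Φ(t+2π) - Φ(t+π+u)`: positive numbers with sum `2π`, and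
`sin a1 + sin a2 + sin a3 + sin a4 = 4 sin((a1+a2)/2) sin((a2+a3)/2) sin((a1+a3)/2) > 0` for `a4 = 2π - a1 - a2 - a3`
(all three angles in `(0,π)`).  (No Fubini for functions of two variables is needed if one writes
`|a|² = mean_t (conj (φ) ζ)(t) * mean_s (..)(s + t)`, by translation invariance of the mean.)
Second claim: `|mean φ²| ≤ 1` with equality only if `φ²` is constant (continuous function of modulus
one), impossible for an injective `φ`.
Hypotheses: hDLI. -/
def StDPO : Prop := ∀ φ : ℂ → ℂ, Deg1 φ →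
  ‖PI (fun ζ => φ ζ * ζ) 0‖ < ‖PI (fun ζ => φ ζ * conj ζ) 0‖ ∧ ‖PI (fun ζ => φ ζ ^ 2) 0‖ < 1

/-- DEX (about 150 lines)
(Existence of the barycentre.)  For `z ∈ D` there is `w ∈ D` with `FF φ z w = 0`.
Proof: define `G w = FF φ z w` for `‖w‖ < 1` and `G w = -w` otherwise.  `G` is continuous on the closed
disc: inside, `TT w η` is jointly continuous and bounded; at `w0 ∈ SS`: for `η ∈ SS`, `η ≠ w0`, one has
`TT w η → -w0` as `w → w0` (`w ∈ D`), `|TT w η| ≤ 1`, and `φ ζ = w0` for at most one `ζ`, so dominated convergence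
gives `FF φ z w → -w0 * PI 1 z = -w0` (hPIN).  If `G` had no zero in `D` it would have none in `DD`, so it
would have a logarithm on `DD` (hTCV), hence `-w`, and so `w`, would have one on the circle:
contradiction to hTCI (1) with `n = 1`.
Hypotheses: hTCV hTCI hPIN. -/
def StDEX : Prop := ∀ φ : ℂ → ℂ, Deg1 φ → ∀ z ∈ D, ∃ w ∈ D, FF φ z w = 0

/-- DUN (about 150 lines)
(Uniqueness of the barycentre.)  If `w1, w2 ∈ D` and `FF φ z w1 = 0 = FF φ z w2` then `w1 = w2`.
Proof: let `r = TT w1 w2`, suppose `r ≠ 0`, `s = |r| < 1`.  There is `κ` of modulus one with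
`TT w2 η = κ TT r (TT w1 η)` for all `η ∈ SS` (composition of disc automorphisms).  With `x ζ = TT w1 (φ ζ) ∈ SS`:
`PI x z = 0` and `PI (TT r x) z = 0`.  For `|x| = 1`, `c = Re (conj r x)/s`:
`Re (conj r TT r x)/s = ((1+s²)c - 2s)/(1 - 2sc + s²)`, and this minus `c` equals
`-2s(1 - c²)/(1 - 2sc + s²) ≤ 0`, with equality only for `c = ±1`, that is `x = ±r/s`, which happens for at most
two `ζ` (`φ` and `TT w1` are injective on the circle).  The Poisson kernel is positive and everything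
is continuous, so `Re (conj r PI (TT r x) z) < Re (conj r PI x z)`, i.e. `0 < 0`: contradiction.
Hypotheses: hPIN. -/
def StDUN : Prop := ∀ φ : ℂ → ℂ, Deg1 φ → ∀ z ∈ D, ∀ w1 ∈ D, ∀ w2 ∈ D,
  FF φ z w1 = 0 → FF φ z w2 = 0 → w1 = w2

/-- DNA (about 100 lines)
(Naturality.)  Let `A, B ∈ SU(1,1)` and `φ (mob B ζ) = mob A (φ ζ)` on the circle.  If `FF φ z w = 0` then
`FF φ (mob B z) (mob A w) = 0`.
Proof: by hPIN `FF φ (mob B z) (mob A w) = PI (TT (mob A w) ∘ φ ∘ mob B) z = PI (TT (mob A w) ∘ mob A ∘ φ) z`, and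
`TT (mob A w) (mob A η) = κ TT w η` for `η ∈ SS` with a constant `κ` (`|κ| = 1`; explicitly
`mob A η - mob A w = (η - w)/(den A η den A w)` and `1 - conj (mob A w) mob A η = (1 - conj w η)/(conj (den A w) den A η)`, so
`κ = conj (den A w)/den A w`).
Hypotheses: hPIN hSUB. -/
def StDNA : Prop := ∀ (φ : ℂ → ℂ) (A B : SL), Deg1 φ → IsSU A → IsSU B →
  (∀ ζ ∈ SS, φ (mob B ζ) = mob A (φ ζ)) → ∀ z ∈ D, ∀ w ∈ D, FF φ z w = 0 →
  FF φ (mob B z) (mob A w) = 0

/-- DDR (about 250 lines)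
(`FF` is continuously differentiable.)  The function `(z, w) ↦ FF φ z w` is `C^1` (over `ℝ`) on
`D × D`, with derivative
`(a, b) ↦ α a + β conj a + γ b + δ conj b`, where
`α = PI (TT w (φ ζ) * conj (TT z ζ)) z / (1 - |z|²)`, `β = PI (TT w (φ ζ) * TT z ζ) z / (1 - |z|²)`,
`γ = PI (-1/(1 - conj w φ ζ)) z`, `δ = PI ((φ ζ - w) φ ζ/(1 - conj w φ ζ)²) z`.
Proof: differentiation under the integral (`hasFDerivAt_integral_of_dominated_of_fderiv_le` on small
balls; all integrands are continuous in all variables).  `∂_w TT = -1/(1 - conj w η)`,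
`∂_{conj w} TT = (η - w) η/(1 - conj w η)²`; `PK z ζ = Re ((ζ + z)/(ζ - z))` for `|ζ| = 1`, so
`∂_z PK = ζ/(ζ - z)² = PK z ζ * conj (TT z ζ)/(1 - |z|²)` (use `conj ζ = 1/ζ`), `∂_{conj z} PK` is the conjugate.
Continuity of the derivative: the formulas are integrals of continuous functions of `(z, w, t)`
over a compact interval (`intervalIntegral.continuous_parametric_intervalIntegral_of_continuous` or
similar on the open set).
Hypotheses: none. -/
def StDDR : Prop := ∀ φ : ℂ → ℂ, Deg1 φ →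
  ContDiffOn ℝ 1 (fun p : ℂ × ℂ => FF φ p.1 p.2) (D ×ˢ D) ∧
  ∀ z ∈ D, ∀ w ∈ D, ∀ a b : ℂ,
    fderiv ℝ (fun p : ℂ × ℂ => FF φ p.1 p.2) (z, w) (a, b) =
      PI (fun ζ => TT w (φ ζ) * conj (TT z ζ)) z / ((1 - ‖z‖ ^ 2 : ℝ) : ℂ) * a +
      PI (fun ζ => TT w (φ ζ) * TT z ζ) z / ((1 - ‖z‖ ^ 2 : ℝ) : ℂ) * conj a +
      PI (fun ζ => -1 / (1 - conj w * φ ζ)) z * b +
      PI (fun ζ => (φ ζ - w) * φ ζ / (1 - conj w * φ ζ) ^ 2) z * conj b

/-- DIM (about 250 lines)
(The extension is a local diffeomorphism.)  Let `φ` be as above.  There is `E : ℂ → ℂ` which maps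
`D` to `D`, `FF φ z (E z) = 0` for `z ∈ D`, is `C^1` on `D`, and `|dzb E z| < |dz E z|` there.
Proof: `E z` is the unique zero (hDEX, hDUN).  Let `z0 ∈ D`, `w0 = E z0`.  With `x ζ = TT w0 (φ ζ)` (mean
zero: `PI x z0 = 0`) one has `1 - conj w0 φ = (1 - |w0|²)/(1 + conj w0 x)`, hence
`γ = -1/(1 - |w0|²)`, and `(φ - w0) φ/(1 - conj w0 φ)² = x (x + w0)/(1 - |w0|²)`, so `δ = PI (x²) z0/(1 - |w0|²)`.
Choose `B ∈ SU(1,1)` with `mob B 0 = z0` (hSUB); `ψ = x ∘ mob B` is an orientation preserving homeomorphism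
of the circle (composition of `φ` with two disc automorphisms; degree: hTCI and hTPB, or:
`mob B ζ ζ⁻¹` and `TT w0 η η⁻¹` have logarithms on the circle, since `mob A ζ / ζ = (a ζ + b)/(ζ (conj b ζ + conj a))` is
`(a/conj a) (1 + b/(aζ))/(1 + conj b ζ/conj a)`, both brackets within distance `< 1` of one), by hPIN `PI (x²) z0 =
mean ψ²`, and `TT z0 (mob B ζ) = κ ζ`, `|κ| = 1`, so `|α| = |mean (ψ conj ζ)|/(1-|z0|²)`,
`|β| = |mean (ψ ζ)|/(1-|z0|²)`.  By hDPO `|δ| < |γ|` and `|β| < |α|`.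
The `w`-derivative `b ↦ γ b + δ conj b` is invertible, so by the implicit function theorem
(`HasStrictFDerivAt.implicitFunction` or ContDiffAt version) there is a `C^1` function near `z0` which
solves `FF φ z (w z) = 0`; by uniqueness it is `E`.  Its derivative `a ↦ e a + e' conj a` satisfies
`α + γ e + δ conj e' = 0`, `β + γ e' + δ conj e = 0`; hence `(|γ|² - |δ|²) e = -conj γ α + δ conj β`,
`(|γ|² - |δ|²) e' = -conj γ β + δ conj α` and `(|γ|² - |δ|²)² (|e|² - |e'|²) = (|γ|² - |δ|²)(|α|² - |β|²) > 0`.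
Hypotheses: hPIN hSUB hDEX hDUN hDDR hDPO hTPB. -/
def StDIM : Prop := ∀ φ : ℂ → ℂ, Deg1 φ → ∃ E : ℂ → ℂ, MapsTo E D D ∧
  (∀ z ∈ D, FF φ z (E z) = 0) ∧ ContDiffOn ℝ 1 E D ∧ ∀ z ∈ D, ‖dzb E z‖ < ‖dz E z‖

/-- DBD (about 200 lines)
(Boundary values.)  Let `E` be as in hDIM.  Then the function equal to `E` on `D` and to `φ` on the
circle is continuous on the closed disc.
Proof: continuity inside and along the circle is known.  Let `z_n ∈ D`, `z_n → ζ0 ∈ SS`, `w_n = E z_n`; it is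
enough that every limit point `w*` of `w_n` in the closed disc equals `φ ζ0`.  (a) For continuous
`u` on the circle `PI u z_n → u ζ0` (Poisson integral, uniformly for `u` in a compact subset of
`C(circle)`); more precisely for every arc `I` about `ζ0` the mass `PI (1 - 1_I) z_n → 0`.  (b) If `w* ∈ D`:
`TT w_n ∘ φ → TT w* ∘ φ` uniformly on the circle, so `0 = FF φ z_n w_n → TT w* (φ ζ0)`, which has modulus one:
contradiction.  (c) If `|w*| = 1`, `w* ≠ φ ζ0`: there is an arc `I` about `ζ0` with `|φ ζ - w*| ≥ c > 0` on `I`; for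
`|η - w*| ≥ c`, `|η| = 1`, `TT w_n η → -w*` uniformly, while `|TT w_n| ≤ 1` outside: `0 = FF φ z_n w_n → -w* ≠ 0`.
Hypotheses: hPIN. -/
def StDBD : Prop := ∀ φ E : ℂ → ℂ, Deg1 φ → MapsTo E D D → (∀ z ∈ D, FF φ z (E z) = 0) →
  ContinuousOn E D → ContinuousOn (fun z => if ‖z‖ < 1 then E z else φ z) DD

/-- DBJ (about 150 lines)
(Global bijectivity.)  Let `E` be continuous on the closed disc, map `D` to `D` and `SS` to `SS`, and let
`E` be `C^1` on `D` with `|dzb E z| < |dz E z|` there.  Then `E` maps `D` bijectively onto `D`.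
Proof: `E : D → D` (subtypes) is a local homeomorphism (inverse function theorem: the derivative
`a ↦ dz E z a + dzb E z conj a` is invertible) and proper, in particular closed with finite fibres
(the preimage of a compact subset of `D` is closed in `DD` and disjoint from the circle).  Hence it
is a covering map (`IsClosedMap.isCoveringMapOn_of_isLocalHomeomorphOn`), onto since `D` is connected
(open and closed image).  `D` is simply connected and locally path connected: for two points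
`z1, z2` with `E z1 = E z2 = w` let `s : D → D` be the continuous section of `E` with `s w = z1` (lift of the
identity); `s (D)` is open and closed in `D` (sections of coverings; or: `s ∘ E` and the identity are two
lifts of `E` through `E` which agree at `z1`, so they are equal and `z2 = s (E z2) = s w = z1`).
Hypotheses: none. -/
def StDBJ : Prop := ∀ E : ℂ → ℂ, ContinuousOn E DD → MapsTo E D D → MapsTo E SS SS →
  ContDiffOn ℝ 1 E D → (∀ z ∈ D, ‖dzb E z‖ < ‖dz E z‖) → BijOn E D D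

/-- DET (about 100 lines)
(Douady-Earle theorem.)  For every orientation preserving homeomorphism `φ` of the circle there
is `E`, continuous on the closed disc, equal to `φ` on the circle, a `C^1` diffeomorphism of `D` with
positive Jacobian, natural: if `A, B ∈ SU(1,1)` and `φ ∘ mob B = mob A ∘ φ` on the circle then
`E ∘ mob B = mob A ∘ E` on `D`.
Proof: hDIM, hDBD, hDBJ, hDNA with hDUN (and hSUB: `mob` preserves `D`).
Hypotheses: hSUB hDUN hDNA hDIM hDBD hDBJ. -/
def StDET : Prop := ∀ φ : ℂ → ℂ, Deg1 φ → ∃ E : ℂ → ℂ, ContinuousOn E DD ∧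
  (∀ ζ ∈ SS, E ζ = φ ζ) ∧ BijOn E D D ∧ ContDiffOn ℝ 1 E D ∧ (∀ z ∈ D, ‖dzb E z‖ < ‖dz E z‖) ∧
  ∀ A B : SL, IsSU A → IsSU B → (∀ ζ ∈ SS, φ (mob B ζ) = mob A (φ ζ)) →
    ∀ z ∈ D, E (mob B z) = mob A (E z)

/-- DDI (about 100 lines)
(Bounded dilatation.)  Let `σ, τ : Γ → SU(1,1)`, `σ` cocompact on the disc, `E : D → D` of class `C^1` with
`|dzb E| < |dz E|` and `E ∘ mob (σ γ) = mob (τ γ) ∘ E` on `D`.  Then `|dzb E| ≤ k |dz E|` on `D` for some
`k < 1`.
Proof: by the chain rule with holomorphic maps `m(z) = |dzb E z|/|dz E z|` satisfies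
`m (mob (σ γ) z) = m z` (differentiate the equation at `z`; the derivatives of `mob` are nonzero complex
numbers, hSUB), it is continuous on `D`, so its supremum is its maximum on `closedBall 0 r`, less than
one (if `r < 0` the disc would be empty; `r ≥ 0`).
Hypotheses: hSUB. -/
def StDDI : Prop := ∀ (Γ : Type) [Group Γ] (σ τ : Γ →* SL) (E : ℂ → ℂ), Fuch σ →
  (∀ γ, IsSU (τ γ)) → MapsTo E D D → ContDiffOn ℝ 1 E D → (∀ z ∈ D, ‖dzb E z‖ < ‖dz E z‖) →
  (∀ γ, ∀ z ∈ D, E (mob (σ γ) z) = mob (τ γ) (E z)) →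
  ∃ k : ℝ, 0 ≤ k ∧ k < 1 ∧ ∀ z ∈ D, ‖dzb E z‖ ≤ k * ‖dz E z‖

end Pool.Agent.Helper20.QD
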