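import Pool.Agent.Helper35.PQF.Defs

/-!
# Project QD, part B (MP_d112a4_gt): every quasifuchsian representation is a quasiconformal
# deformation of a Fuchsian group.  Definitions.

Coordinates: `Qp z` is the point of the boundary sphere of `ℍ³` (rank one, trace one) which
corresponds to `z ∈ ℂ`, `Qinf` is the point at infinity; `mob A` is the fractional linear map,
`den A z` its denominator; `D` is the unit disc, `SS` the unit circle.
-/

open Filter Topology Matrix Set Metric
open scoped ComplexConjugate ComplexOrder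

namespace Pool.Agent.Helper20.QD

open Pool.Agent.Helper35.PM

/-- `u` has a continuous logarithm on `K`. -/
def LogOn {X : Type*} [TopologicalSpace X] (K : Set X) (u : X → ℂ) : Prop :=
  ∃ g : X → ℂ, ContinuousOn g K ∧ ∀ z ∈ K, u z = Complex.exp (g z)

/-- The unit disc. -/
abbrev D : Set ℂ := ball (0 : ℂ) 1

/-- The unit circle. -/
abbrev SS : Set ℂ := sphere (0 : ℂ) 1

/-- The closed unit disc. -/
abbrev DD : Set ℂ := closedBall (0 : ℂ) 1

/-- Points of the complement of `J` about which `J` winds. -/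
def inn (J : Set ℂ) : Set ℂ := {p | p ∉ J ∧ ¬ LogOn J (fun z => z - p)}

/-- Points of the complement of `J` about which `J` does not wind. -/
def out (J : Set ℂ) : Set ℂ := {p | p ∉ J ∧ LogOn J (fun z => z - p)}

/-- `β` parametrises the Jordan curve `J`. -/
def Param (β : ℂ → ℂ) (J : Set ℂ) : Prop :=
  ContinuousOn β SS ∧ InjOn β SS ∧ β '' SS = J

/-- Closed unit square with lower left corner `s`. -/
def sq (s : ℤ × ℤ) : Set ℂ :=
  {z | (s.1 : ℝ) ≤ z.re ∧ z.re ≤ (s.1 : ℝ) + 1 ∧ (s.2 : ℝ) ≤ z.im ∧ z.im ≤ (s.2 : ℝ) + 1}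

/-- Centre of the unit square. -/
noncomputable def cen (s : ℤ × ℤ) : ℂ := ⟨(s.1 : ℝ) + 1 / 2, (s.2 : ℝ) + 1 / 2⟩

/-- Denominator. -/
def den (A : SL) (z : ℂ) : ℂ := (A : Mat) 1 0 * z + (A : Mat) 1 1

/-- Fractional linear map. -/
noncomputable def mob (A : SL) (z : ℂ) : ℂ :=
  ((A : Mat) 0 0 * z + (A : Mat) 0 1) / ((A : Mat) 1 0 * z + (A : Mat) 1 1)

/-- `A` lies in `SU(1,1)` (it preserves the unit disc). -/
def IsSU (A : SL) : Prop :=
  (A : Mat) 1 1 = conj ((A : Mat) 0 0) ∧ (A : Mat) 1 0 = conj ((A : Mat) 0 1)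

/-- The boundary point with coordinate `z`. -/
noncomputable def Qp (z : ℂ) : Mat :=
  ((1 + ‖z‖ ^ 2 : ℝ) : ℂ)⁻¹ • !![((‖z‖ ^ 2 : ℝ) : ℂ), z; conj z, 1]

/-- The boundary point at infinity. -/
def Qinf : Mat := !![1, 0; 0, 0]

/-- The boundary sphere of `ℍ³`. -/
def sph : Set Mat := {Q | Q.PosSemidef ∧ Q.trace = 1 ∧ Q.det = 0}

variable {Γ : Type} [Group Γ]

/-- Action of `A` on the closed ball. -/
noncomputable def act (A : SL) (P : Mat) : Mat := density ((A : Mat) * P * (A : Mat)ᴴ)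

/-- The orbit of the base point. -/
noncomputable def orb (ρ : Γ →* SL) (γ : Γ) : Mat := density ((ρ γ : Mat) * (ρ γ : Mat)ᴴ)

/-- The finite part of the limit set. -/
def Lam (ρ : Γ →* SL) : Set ℂ := {z | Qp z ∈ limitSet ρ}

/-- Discrete and convex cocompact. -/
structure CC (ρ : Γ →* SL) : Prop where
  discrete : IsDiscrete ρ
  cocompact : ConvexCocompact ρ

/-- Every element preserves the sides of the limit set: a point of the complement of the limit
set in the sphere and its image lie in a connected subset of the complement. -/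
def Sides (ρ : Γ →* SL) : Prop :=
  ∀ γ, ∀ Q ∈ sph \ limitSet ρ, ∃ T : Set Mat, IsPreconnected T ∧ T ⊆ sph \ limitSet ρ ∧
    Q ∈ T ∧ act (ρ γ) Q ∈ T

/-- Normalised situation: infinity is in the domain of discontinuity, the limit set is a Jordan
curve in the plane, and its inside is invariant. -/
structure Good (ρ : Γ →* SL) : Prop where
  cc : CC ρ
  inf : Qinf ∉ limitSet ρ
  jordan : ∃ β, Param β (Lam ρ)
  side : ∀ γ, ∀ z ∈ inn (Lam ρ), den (ρ γ) z ≠ 0 ∧ mob (ρ γ) z ∈ inn (Lam ρ)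

/-- A Fuchsian representation into `SU(1,1)`, cocompact on the unit disc. -/
structure Fuch (σ : Γ →* SL) : Prop where
  su : ∀ γ, IsSU (σ γ)
  discrete : IsDiscrete σ
  cocompact : ∃ r : ℝ, r < 1 ∧ ∀ z ∈ D, ∃ γ, ‖mob (σ γ) z‖ ≤ r

/-- Squared Frobenius distance. -/
noncomputable def fr (P Q : Mat) : ℝ := hs (P - Q)

/-- `∂/∂z` and `∂/∂z̄` of a real differentiable function. -/
noncomputable def dz (E : ℂ → ℂ) (z : ℂ) : ℂ :=
  (fderiv ℝ E z 1 - Complex.I * fderiv ℝ E z Complex.I) / 2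

noncomputable def dzb (E : ℂ → ℂ) (z : ℂ) : ℂ :=
  (fderiv ℝ E z 1 + Complex.I * fderiv ℝ E z Complex.I) / 2

end Pool.Agent.Helper20.QD
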