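import Pool.Agent.Helper20.QD.Defs

/-!
# Project QD, part B: statements, file 1 (planar topology by continuous logarithms)

Everything is expressed with `LogOn K u` (the function `u` has a continuous logarithm on `K`).
No homology, no winding numbers: the only input is that `exp` is a covering map.
-/

open Filter Topology Matrix Set Metric
open scoped ComplexConjugate

namespace Pool.Agent.Helper20.QD

open Pool.Agent.Helper35.PM

/-- TCV (about 60 lines)
(Logarithms on convex sets.)  A function which is continuous and without zeros on a convex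
subset of the plane has a continuous logarithm there.
Proof: a convex set is contractible (hence simply connected) and locally path connected (balls
intersected with it are convex), so the map to `ℂ ∖ {0}` lifts through the covering
`Complex.exp` (`Complex.isCoveringMapOn_exp`, `existsUnique_continuousMap_lifts`; compare
`Complex.exists_continuousOn_eqOn_exp_comp` in Mathlib/Analysis/Complex/BranchLogRoot.lean, which
is the case of an open simply connected set).  If `K` is empty take anything.
Hypotheses: none. -/
def StTCV : Prop := ∀ (K : Set ℂ) (u : ℂ → ℂ), Convex ℝ K → ContinuousOn u K →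
  (∀ z ∈ K, u z ≠ 0) → LogOn K u

/-- TCI (about 120 lines)
(The circle.)  (1) If `(z - p)^n` has a continuous logarithm on the circle `|z - p| = R` then
`n = 0`.  (2) Every continuous zero free function on the unit circle is `z^{-n}` times an
exponential for some integer `n`.
Proof of (1): if `g` is the logarithm, `t ↦ g (p + R e^{it}) - i n t - n log R` is continuous on
`ℝ` with values in `2πiℤ` (its exponential is one), so it is constant; comparing `t = 0` and
`t = 2π` gives `2 π i n = 0`.
Proof of (2): by hTCV on the interval `[0, 2π] ⊆ ℂ` (or by path lifting) there is a continuous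
`G : ℝ → ℂ` on `[0, 2π]` with `exp (G t) = u (e^{it})`; `G (2π) - G 0 = 2 π i m` with an integer
`m`; then `H t = G t - i m t` satisfies `H 0 = H (2π)` and `exp (H t) = u (e^{it}) e^{-imt}`, and
`H` descends to a continuous function on the circle (`t = arg`, quotient map
`[0,2π] → circle`, for instance `h z = H (arg)` glued, or use that `t ↦ e^{it}` is a closed
map on `[0,2π]`).  Take `n = -m`.
Hypotheses: hTCV. -/
def StTCI : Prop :=
  (∀ (p : ℂ) (R : ℝ) (n : ℤ), 0 < R → LogOn (sphere p R) (fun z => (z - p) ^ n) → n = 0) ∧
  ∀ u : ℂ → ℂ, ContinuousOn u SS → (∀ z ∈ SS, u z ≠ 0) →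
    ∃ n : ℤ, LogOn SS (fun z => u z * z ^ n)

/-- TPB (about 60 lines)
(Elementary rules.)  (1) pull back: if `β` is continuous on `S` and maps `S` to `J` and
`LogOn J u`, then `LogOn S (u ∘ β)`.  (2) transport: if `S` is compact, `β` continuous and
injective on `S`, and `LogOn S (u ∘ β)`, then `LogOn (β '' S) u` (the inverse of `β` is
continuous on the compact set `β '' S`).  (3) products and integral powers of functions with
logarithms have logarithms.  (4) a function with `‖u z - 1‖ < 1` on `K`, continuous on `K`, has a
logarithm on `K` (principal branch).  (5) restriction to subsets and congruence.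
Hypotheses: none. -/
def StTPB : Prop :=
  (∀ (S J : Set ℂ) (β u : ℂ → ℂ), ContinuousOn β S → MapsTo β S J → LogOn J u →
    LogOn S (fun z => u (β z))) ∧
  (∀ (S : Set ℂ) (β u : ℂ → ℂ), IsCompact S → ContinuousOn β S → InjOn β S →
    LogOn S (fun z => u (β z)) → LogOn (β '' S) u) ∧
  (∀ (K : Set ℂ) (u v : ℂ → ℂ), LogOn K u → LogOn K v → LogOn K (fun z => u z * v z)) ∧
  (∀ (K : Set ℂ) (u : ℂ → ℂ) (n : ℤ), LogOn K u → LogOn K (fun z => u z ^ n)) ∧
  (∀ (K : Set ℂ) (u : ℂ → ℂ), ContinuousOn u K → (∀ z ∈ K, ‖u z - 1‖ < 1) → LogOn K u) ∧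
  (∀ (K L : Set ℂ) (u v : ℂ → ℂ), K ⊆ L → LogOn L u → (∀ z ∈ K, u z = v z) → LogOn K v)

/-- TGR (about 250 lines)
(Grid theorem.)  Let `S` be a finite set of closed unit squares of the integer grid, `K` their
union, `u` continuous without zeros on `K`.  Then there are integers `n t`, where `t` runs over
the squares which are NOT in `S` and whose right neighbour is in `S`, such that
`u z * ∏ (z - cen t)^{n t}` has a continuous logarithm on `K`.
Proof: induction on the number of squares of `S`; let `B = (i,j)` be the LEXICOGRAPHICALLY largest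
element of `S` (largest `i`, then largest `j`), `S' = S ∖ {B}`, `A` the union of `S'`.  By induction
there are `n'` and `g` continuous on `A` with `exp g = v`, `v = u ∏_{T'} (z - cen t)^{n' t}`,
`T' = {t ∉ S', (t.1+1, t.2) ∈ S'}`; `B ∉ T'` since its right neighbour would be larger, so `T' ⊆ T`
(the same set for `S`; a square of `T'` is not in `S`) and `v` is zero free on `sq B`, too; let
`exp h = v` on `sq B` (hTCV).  On `A ∩ sq B` the function `(g - h)/(2πi)` is continuous with integer
values.  The squares of `S'` which meet `sq B` are among `(i-1,j-1), (i-1,j), (i-1,j+1), (i,j-1)`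
(the other neighbours are lexicographically larger).  So `A ∩ sq B` is the union of: the left
edge if `(i-1,j) ∈ S`, the bottom edge if `(i,j-1) ∈ S`, the corner `i + (j+1) I` if
`(i-1,j+1) ∈ S`, the corner `i + j I` if `(i-1,j-1) ∈ S`.
Case 1: `(i-1,j) ∈ S`, or `(i-1,j+1) ∉ S`, or neither of `(i,j-1), (i-1,j-1)` is in `S`.  Then
`A ∩ sq B` is empty or connected (a union of at most: left edge, bottom edge, which share the
corner), so the integer is a constant `k`; replace `h` by `h + 2πik` and glue the continuous
functions on the closed sets `A`, `sq B`.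
Case 2: `(i-1,j) ∉ S`, `(i-1,j+1) ∈ S` and (`(i,j-1) ∈ S` or `(i-1,j-1) ∈ S`): `A ∩ sq B` is the
disjoint union of `C2 = {i + (j+1) I}` and of a connected set `C1` in the bottom edge; let `d2, d1` be
the integers there.  Let `p = cen (i-1,j)` (a square of `T`, not of `T'` since `B ∉ S'`).  The
horizontal ray `{p + t, t ≥ 0}` does not meet `A` (the squares it meets are `(i-1,j)`, `B` and
larger ones), so on `A` `z - p = exp (gp z)` with `gp z = Complex.log (-(z-p)) + π I`; on `sq B` one has
`re (z - p) ≥ 1/2` and `z - p = exp (Complex.log (z-p))`; on `C2` (`im (z-p) > 0`) `gp = log (z-p)`, on `C1`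
(`im (z-p) < 0`) `gp = log (z-p) + 2πi`.  With exponent `m` at `p` and `h' = h + m log (z-p) + 2πi k`,
`g' = g + m gp` the difference is `2πi (d1 + m - k)` on `C1` and `2πi (d2 - k)` on `C2`: take `k = d2`,
`m = d2 - d1` and glue.
Hypotheses: hTCV. -/
def StTGR : Prop := ∀ (S : Finset (ℤ × ℤ)) (u : ℂ → ℂ),
  ContinuousOn u (⋃ s ∈ S, sq s) → (∀ z ∈ ⋃ s ∈ S, sq s, u z ≠ 0) →
  ∃ n : ℤ × ℤ → ℤ, LogOn (⋃ s ∈ S, sq s)
    (fun z => u z * ∏ t ∈ (S.image (fun s => (s.1 - 1, s.2))) \ S, (z - cen t) ^ (n t))

/-- TGE (about 120 lines)
(Generation theorem of Eilenberg.)  Let `K` be compact in the plane, `u` continuous without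
zeros on `K`.  Then there are finitely many points `t ∉ K` and integers `n t` such that
`u z * ∏ (z - t)^{n t}` has a continuous logarithm on `K`.
Proof: extend `u` to a continuous function `U` on the plane (Tietze, Mathlib/Analysis/Complex/
Tietze.lean).  `U` is zero free on `K`, hence (compactness) on `{z : infDist z K ≤ ε}` for some
`ε > 0`.  Scale by `N > 4/ε`: the squares of the grid which meet `N K` form a finite set `S`
(boundedness), their union contains `N K` and every point `z` of the union satisfies
`dist (z/N) K ≤ 2/N < ε`; apply hTGR to `z ↦ U (z/N)`; the centres `cen t`, `t ∉ S`, are not in `N K`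
(a point of `N K` lies only in squares of `S`).  Put `T = {cen t / N}`; `(z - cen t)` at `N z` is
`N (z - cen t/N)` and the constants `N^{n t}` have logarithms.
Hypotheses: hTGR hTPB. -/
def StTGE : Prop := ∀ (K : Set ℂ) (u : ℂ → ℂ), IsCompact K → ContinuousOn u K →
  (∀ z ∈ K, u z ≠ 0) → ∃ (T : Finset ℂ) (n : ℂ → ℤ), (∀ t ∈ T, t ∉ K) ∧
    LogOn K (fun z => u z * ∏ t ∈ T, (z - t) ^ (n t))

/-- TSA (about 80 lines)
(Points in the same component.)  (1) If `K` is compact, `C` is a preconnected set disjoint from
`K`, `p, q ∈ C`, then `(z - p)/(z - q)` has a logarithm on `K`.  (2) if `K ⊆ ball 0 R` and `R ≤ ‖p‖` then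
`z - p` has a logarithm on `K`.
Proof of (1): the set of `p' ∈ C` for which `(z - p')/(z - q)` has a logarithm on `K` contains `q`; it
is open in `C`, and so is its complement in `C`, since for `|p' - p''| < infDist p'' K` we have
`|(z - p')/(z - p'') - 1| = |p' - p''|/|z - p''| < 1` on `K` (K nonempty; the case `K = ∅` is trivial),
so the quotient has a logarithm by hTPB (4).  (2): `z - p = -p (1 - z/p)` with `|z/p| < 1`.
Hypotheses: hTPB. -/
def StTSA : Prop :=
  (∀ (K C : Set ℂ) (p q : ℂ), IsCompact K → IsPreconnected C → Disjoint C K → p ∈ C → q ∈ C →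
    LogOn K (fun z => (z - p) / (z - q))) ∧
  ∀ (K : Set ℂ) (p : ℂ) (R : ℝ), K ⊆ ball 0 R → R ≤ ‖p‖ → LogOn K (fun z => z - p)

/-- TJM (about 120 lines)
(Bounded components are detected.)  Let `V` be a bounded open set, `p ∈ V`, `K` a set which
contains the frontier of `V`, `u` continuous without zeros on the closure of `V`, `m` an
integer.  If `(z - p)^m * u z` has a continuous logarithm on `K` then `m = 0`.
Proof: let `g` be the logarithm on the compact set `frontier V`, extended to a continuous
`G : ℂ → ℂ` (Tietze).  Define `F z = exp (G z) / u z` for `z ∈ closure V` and `F z = (z - p)^m` for `z ∉ V`;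
the two formulas agree on the frontier, both sets are closed, so `F` is continuous on the
plane, and it has no zeros (`z ≠ p` outside `V`).  Choose `R > 0` with `closure V ⊆ ball p R`: `F` has a
logarithm on `closedBall p R` (hTCV), hence `(z - p)^m = F` has one on the sphere of radius `R`, so
`m = 0` by hTCI (1).
Hypotheses: hTCV hTCI. -/
def StTJM : Prop := ∀ (V K : Set ℂ) (p : ℂ) (u : ℂ → ℂ) (m : ℤ), IsOpen V →
  Bornology.IsBounded V → p ∈ V → frontier V ⊆ K → ContinuousOn u (closure V) →
  (∀ z ∈ closure V, u z ≠ 0) → LogOn K (fun z => (z - p) ^ m * u z) → m = 0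

/-- TJ1 (about 100 lines)
(Jordan curve theorem, existence of the inside, and the degree.)  Let `β` parametrise the
Jordan curve `J`.  (1) `inn J` is not empty.  (2) there is a sign `s` such that for every
`p ∈ inn J` the function `(β ζ - p) ζ^{-s}` has a logarithm on the unit circle.
Proof: let `w` be the inverse of `β` on `J` (continuous since the circle is compact).  By hTGE there
are `T` and `n` with `LogOn J (w ∏ (z - t)^{n t})`.  For `t ∈ T`, `t ∉ J`, let `a t` be an integer with
`LogOn SS ((β ζ - t) ζ^{-a t})` (hTCI (2)).  Pull back by `β`: `ζ ∏ ζ^{a t n t}` has a logarithm on the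
circle, so `1 + ∑ a t n t = 0` by hTCI (1).  If `inn J` were empty all `z - t` would have a logarithm on
`J` and hence all `a t` would be zero (hTCI (1), exponents compared), contradiction: (1).
(2): any two points `p, q ∈ inn J` have the same exponent up to sign: apply the first part of the
argument again: `T` splits in `out J` (exponent zero) and `inn J`; points of `inn J` lie in ONE
component (hTJ2 below says that `inn J` is preconnected), so by hTSA (1) all `a t` with
`t ∈ inn J` are equal to one integer `a`; then `1 + a ∑ n t = 0` gives `a = ±1`; and for any `p ∈ inn J` the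
exponent is also `a`, by hTSA (1).
Hypotheses: hTCI hTPB hTGE hTSA hTJ2. -/
def StTJ1 : Prop := ∀ (β : ℂ → ℂ) (J : Set ℂ), Param β J → (inn J).Nonempty ∧
  ∃ s : ℤ, (s = 1 ∨ s = -1) ∧ ∀ p ∈ inn J, LogOn SS (fun ζ => (β ζ - p) * ζ ^ (-s))

/-- TJ2 (about 200 lines)
(Jordan curve theorem, at most two components.)  Let `J` be a Jordan curve.  Then `inn J` is
open, bounded and preconnected, `out J` is open and preconnected and contains a neighbourhood of
infinity, and the frontier of each of them is contained in `J`; moreover `J` lies in a ball.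
Proof: `J` is compact; for `p ∉ J` let `V p` be the component of `p` in `Jᶜ` (open).  (a) All points of `V p`
have the same type (hTSA (1), hTPB).  (b) If `V p` is unbounded it contains points of norm `≥ R`,
`J ⊆ ball 0 R`, so `p ∈ out J` (hTSA (2)); the set `{‖z‖ ≥ R}` is connected, so all unbounded components
coincide.  (c) If `V p` is bounded then `p ∈ inn J`: hTJM with `V = V p`, `K = J`, `m = 1`, `u = 1`
(the frontier of a component of the open set `Jᶜ` is contained in `J`).  So `out J` is the unbounded
component: open, connected, contains `{‖z‖ ≥ R}`.  (d) Let `p, q ∈ inn J` and suppose `q ∉ V p`; then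
`q ∉ closure (V p)` (`V q` is open and disjoint from `V p`).  Let `a, b` be the exponents,
`LogOn SS ((β ζ - p) ζ^{-a})`, `LogOn SS ((β ζ - q) ζ^{-b})` (hTCI (2)); then `(β ζ - p)^b (β ζ - q)^{-a}` has
a logarithm on the circle, so `(z - p)^b (z - q)^{-a}` has one on `J` (hTPB (2)); hTJM with `V = V p`,
`u z = (z - q)^{-a}`, `m = b` gives `b = 0`, so `z - q` has a logarithm on `J` (hTPB (2)): contradiction with
`q ∈ inn J`.  So `inn J = V p`: open, connected, bounded.
Hypotheses: hTCI hTPB hTSA hTJM. -/
def StTJ2 : Prop := ∀ (β : ℂ → ℂ) (J : Set ℂ), Param β J →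
  IsOpen (inn J) ∧ Bornology.IsBounded (inn J) ∧ IsPreconnected (inn J) ∧
  IsOpen (out J) ∧ IsPreconnected (out J) ∧ frontier (inn J) ⊆ J ∧ frontier (out J) ⊆ J ∧
  ∃ R : ℝ, J ⊆ ball 0 R ∧ ∀ z : ℂ, R ≤ ‖z‖ → z ∈ out J

/-- TLG (about 150 lines)
(Logarithms on a bounded open set with connected complement.)  Let `U` be open, bounded and
preconnected, with preconnected complement.  Every continuous zero free function on `U` has a
continuous logarithm on `U`.
Proof: we may assume `U` nonempty; `z0 ∈ U`.  `K n = {z : 1/(n+1) ≤ infDist z Uᶜ}` is compact, contained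
in `U`, increasing, and its complement `{infDist z Uᶜ < 1/(n+1)}` is the union of the balls of
radius `1/(n+1)` about the points of `Uᶜ`, so it is preconnected, and it contains the points of large
norm.  So for `t ∉ K n` the function `z - t` has a logarithm on `K n` (hTSA (1) and (2)), hence so has
`u` (hTGE, hTPB).  Let `g n` be a logarithm of `u` on `K n` with `g n z0 = g 0' z0` (add a multiple of
`2πi`; `n ≥ n0` with `z0 ∈ K n0`), and `C n` the connected component of `z0` in `K n`.  On `C n` all `g m`,
`m ≥ n`, agree (the difference is continuous with values in `2πiℤ` and vanishes at `z0`).  The `C n`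
exhaust `U` and every `z ∈ U` has a ball contained in some `C n`: the set of points of `U` which
have a ball contained in some `C n` is open, contains `z0`, and its complement in `U` is open (if
`closedBall z r ⊆ U` is contained in `K m` and meets `C n`, `n ≤ m`, it is contained in `C m`); `U` is
preconnected.  Define `g z = g n z` for the first `n` with `z ∈ C n`: it is continuous on `U`.
Hypotheses: hTPB hTGE hTSA. -/
def StTLG : Prop := ∀ (U : Set ℂ) (u : ℂ → ℂ), IsOpen U → Bornology.IsBounded U →
  IsPreconnected U → IsPreconnected Uᶜ → ContinuousOn u U → (∀ z ∈ U, u z ≠ 0) → LogOn U u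

/-- TIN (about 60 lines)
(The inside of a Jordan curve.)  The complement of `inn J` is preconnected, and hence every
continuous zero free function on `inn J` has a continuous logarithm.
Proof: `(inn J)ᶜ = J ∪ out J`; `J` is connected (image of the circle), `out J` is connected, and
`closure (out J)` meets `J`: otherwise `out J` would be open and closed (its frontier is contained
in `J` by hTJ2), so equal to the plane, but `J` is nonempty.  Union of the connected sets `J` and
`out J` one of which meets the closure of the other.  Then hTLG.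
Hypotheses: hTJ2 hTLG. -/
def StTIN : Prop := ∀ (β : ℂ → ℂ) (J : Set ℂ), Param β J → IsPreconnected (inn J)ᶜ ∧
  ∀ u : ℂ → ℂ, ContinuousOn u (inn J) → (∀ z ∈ inn J, u z ≠ 0) → LogOn (inn J) u

/-- TMO (about 100 lines)
(Inversion exchanges the sides.)  Let `J` be a Jordan curve with parametrisation `β`, `p ∈ inn J`,
`M z = 1/(z - p)`, `J' = M '' J`.  Then `M ∘ β` parametrises `J'` and
`inn J' = {0} ∪ M '' (out J)`.
Proof: `M` is injective and continuous on `J`.  For `w = M q`, `q ∉ J`, `q ≠ p`, and `z' = M z ∈ J'`:
`z' - w = (q - z)/((z - p)(q - p))`, so `LogOn J' (z' - w)` iff `LogOn J ((z - q)/(z - p))` (hTPB (1), (2) with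
`M` and its inverse `w ↦ p + 1/w`).  If `q ∈ out J` this would give `LogOn J (z - p)`, so
`w ∈ inn J'`.  If `q ∈ inn J` it holds (hTSA (1), `inn J` is preconnected by hTJ2), so `w ∉ inn J'`.  For
`w = 0`: `z' = 1/(z - p)` has no logarithm on `J'`, so `0 ∈ inn J'` (`0 ∉ J'` clear).  Every `w ≠ 0` is `M q` with
`q = p + 1/w ≠ p`, and `w ∉ J'` iff `q ∉ J`.
Hypotheses: hTPB hTSA hTJ2. -/
def StTMO : Prop := ∀ (β : ℂ → ℂ) (J : Set ℂ) (p : ℂ), Param β J → p ∈ inn J →
  Param (fun ζ => 1 / (β ζ - p)) ((fun z => 1 / (z - p)) '' J) ∧
  inn ((fun z => 1 / (z - p)) '' J) = {0} ∪ (fun z => 1 / (z - p)) '' (out J)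

/-- TMS (about 60 lines)
(Criterion for preserving the inside.)  Let `A ∈ SL(2,ℂ)`, `J` a set with `den A z ≠ 0` and
`mob A z ∈ J` for `z ∈ J`, and suppose that `den A` has a continuous logarithm on `J`.  Then for every
`q ∈ inn J` we have `den A q ≠ 0`, and if `mob A q ∉ J` then `mob A q ∈ inn J`.
Proof: write `c = A 1 0`, `d = A 1 1`.  If `c q + d = 0` then `c ≠ 0` (det = 1) and `den A z = c (z - q)`, so
`z - q` has a logarithm on `J`, contradiction.  Let `w = mob A q ∉ J`; if `LogOn J (z' - w)` then, composing
with `mob A : J → J` (continuous), `mob A z - mob A q = (z - q)/((c z + d)(c q + d))` has a logarithm on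
`J`, hence so has `z - q`: contradiction.
Hypotheses: hTPB. -/
def StTMS : Prop := ∀ (A : SL) (J : Set ℂ), (∀ z ∈ J, den A z ≠ 0 ∧ mob A z ∈ J) →
  LogOn J (den A) → ∀ q ∈ inn J, den A q ≠ 0 ∧ (mob A q ∉ J → mob A q ∈ inn J)

end Pool.Agent.Helper20.QD
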