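import Pool.Agent.Helper20.QD.St1

/-!
# Project QD, part B: statements, file 3 (dynamics on the sphere)

All matrices are `2 × 2`; for positive semidefinite `P, Q` of trace one
`fr P Q = tr P² + tr Q² - 2 Re tr (P Q)` is the squared Frobenius distance, `tr P² = 1 - 2 det P`,
and `tr P tr Q - tr (P Q) = tr (P adj Q)`.
-/

open Filter Topology Matrix Set Metric
open scoped ComplexConjugate ComplexOrder

namespace Pool.Agent.Helper20.QD

open Pool.Agent.Helper35.PM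

/-- LFR (about 100 lines)
(`fr` is the square of a distance.)  `fr` is nonnegative, symmetric, zero only for `P = Q`,
`√(fr P R) ≤ √(fr P Q) + √(fr Q R)`; every entry satisfies `‖P i j - Q i j‖² ≤ fr P Q`; for every `P`
the sets `{Q | fr Q P < δ}`, `δ > 0`, form a basis of neighbourhoods of `P`.
Proof: `fr P Q = ∑ ‖P i j - Q i j‖²` is the square of the Euclidean norm of the difference (four complex
coordinates); Minkowski.
Hypotheses: none. -/
def StLFR : Prop :=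
  (∀ P Q : Mat, 0 ≤ fr P Q ∧ fr P Q = fr Q P ∧ (fr P Q = 0 → P = Q)) ∧
  (∀ P Q R : Mat, Real.sqrt (fr P R) ≤ Real.sqrt (fr P Q) + Real.sqrt (fr Q R)) ∧
  (∀ (P Q : Mat) (i j : Fin 2), ‖P i j - Q i j‖ ^ 2 ≤ fr P Q) ∧
  ∀ P : Mat, (𝓝 P).HasBasis (fun δ : ℝ => 0 < δ) (fun δ => {Q | fr Q P < δ})

/-- LQC (about 200 lines)
(Coordinates on the sphere.)  (1) `sph = {Qinf} ∪ range Qp`.  (2)
`fr (Qp z) (Qp w) = 2‖z - w‖²/((1+‖z‖²)(1+‖w‖²))` and `fr Qinf (Qp z) = 2/(1+‖z‖²)`; so `Qp` is continuous and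
injective with image missing `Qinf`.  (3) `act A (Qp z) = Qp (mob A z)` if `den A z ≠ 0` and `= Qinf` if
`den A z = 0`.  (4) `act` maps `sph` to `sph` and positive definite matrices of trace one to such
matrices, `act (A * B) P = act A (act B P)` for `P` positive semidefinite with nonzero trace.
Proof: a positive semidefinite matrix of trace one and determinant zero is `v vᴴ` with `v = (1, 0)` or
`v = (z, 1)/√(1+‖z‖²)` (`z = P 0 1 / P 1 1` when `P 1 1 ≠ 0`; `P 0 0 P 1 1 = ‖P 0 1‖²`, `P 0 0 + P 1 1 = 1`).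
`A (z,1)ᵀ = (A00 z + A01, A10 z + A11) = den A z (mob A z, 1)`.  The trace of `A P Aᴴ` is positive for
`P ≠ 0` positive semidefinite, since `A` is invertible.
Hypotheses: none. -/
def StLQC : Prop :=
  (∀ Q ∈ sph, Q = Qinf ∨ ∃ z, Q = Qp z) ∧ Qinf ∈ sph ∧ (∀ z, Qp z ∈ sph ∧ Qp z ≠ Qinf) ∧
  (∀ z w : ℂ, fr (Qp z) (Qp w) = 2 * ‖z - w‖ ^ 2 / ((1 + ‖z‖ ^ 2) * (1 + ‖w‖ ^ 2))) ∧
  (∀ z : ℂ, fr Qinf (Qp z) = 2 / (1 + ‖z‖ ^ 2)) ∧ Continuous Qp ∧ Function.Injective Qp ∧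
  (∀ (A : SL) (z : ℂ), (den A z ≠ 0 → act A (Qp z) = Qp (mob A z)) ∧
    (den A z = 0 → act A (Qp z) = Qinf)) ∧
  (∀ (A : SL), ∀ Q ∈ sph, act A Q ∈ sph) ∧
  (∀ (A : SL) (P : Mat), P.PosDef → P.trace = 1 → (act A P).PosDef ∧ (act A P).trace = 1) ∧
  (∀ (A B : SL) (P : Mat), P.PosSemidef → P.trace = 1 → act (A * B) P = act A (act B P))

/-- LMX (about 150 lines)
(Matrix identities.)  Let `A ∈ SL(2,ℂ)`, `P, Q` positive semidefinite of trace one.  (1) `2 ≤ hs A`,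
`hs (A * B) ≤ hs A * hs B`, `hs A⁻¹ = hs A`; `O A = density (A Aᴴ)` is positive definite with trace one and
`det = 1/hs²`.  (2) for `Q ∈ sph`: `fr (O A) (act A Q) ≤ 2/(hs A * N)` and
`N = (tr (A Q Aᴴ)).re ≥ hs A * fr (O A⁻¹) Q / 2`.  (3) for `P` positive definite of trace one:
`fr (O A) (act A P) ≤ 2/(hs A * (tr (A P Aᴴ)).re)`.
Proof: for `X = A Aᴴ`, `Y = A P Aᴴ` one has `tr X tr Y - tr (X Y) = tr (X adj Y)` and
`adj Y = A⁻ᴴ (adj P) A⁻¹` (`det A = 1`), so `tr (X adj Y) = tr (adj P) = tr P = 1`.  Hence, with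
`X' = X/tr X`, `Y' = Y/tr Y`: `1 - tr (X' Y') = 1/(tr X tr Y)` and
`fr X' Y' = 2 - 2 det X' - 2 det Y' - 2 tr (X' Y') ≤ 2/(tr X tr Y)`, `tr X = hs A`: (3) and the first part of (2)
(`P = Q`).  Second part of (2): `tr (A Q Aᴴ) = tr (Aᴴ A Q)`, and `Aᴴ A = adj (A⁻¹ A⁻ᴴ)`, so with `Z = O A⁻¹`,
`tr (Aᴴ A Q) = hs A (1 - tr (Z Q))` and `fr Z Q = 2 - 2 det Z - 2 tr (Z Q) ≤ 2 (1 - tr (Z Q))`.
Hypotheses: none. -/
def StLMX : Prop :=
  (∀ A : SL, 2 ≤ hs (A : Mat)) ∧ (∀ A B : SL, hs ((A * B : SL) : Mat) ≤ hs (A : Mat) * hs (B : Mat)) ∧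
  (∀ A : SL, hs ((A⁻¹ : SL) : Mat) = hs (A : Mat)) ∧
  (∀ A : SL, (density ((A : Mat) * (A : Mat)ᴴ)).PosDef ∧
    (density ((A : Mat) * (A : Mat)ᴴ)).trace = 1 ∧
    (density ((A : Mat) * (A : Mat)ᴴ)).det = (((1 / hs (A : Mat) ^ 2 : ℝ)) : ℂ)) ∧
  (∀ (A : SL), ∀ Q ∈ sph, 0 < ((A : Mat) * Q * (A : Mat)ᴴ).trace.re ∧
    fr (density ((A : Mat) * (A : Mat)ᴴ)) (act A Q) ≤
      2 / (hs (A : Mat) * ((A : Mat) * Q * (A : Mat)ᴴ).trace.re) ∧
    hs (A : Mat) * fr (density (((A⁻¹ : SL) : Mat) * ((A⁻¹ : SL) : Mat)ᴴ)) Q / 2 ≤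
      ((A : Mat) * Q * (A : Mat)ᴴ).trace.re) ∧
  (∀ (A : SL) (P : Mat), P.PosDef → P.trace = 1 → 0 < ((A : Mat) * P * (A : Mat)ᴴ).trace.re ∧
    fr (density ((A : Mat) * (A : Mat)ᴴ)) (act A P) ≤
      2 / (hs (A : Mat) * ((A : Mat) * P * (A : Mat)ᴴ).trace.re))

/-- LLS (about 150 lines)
(The limit set.)  Let `ρ` be discrete.  (1) `limitSet ρ` is closed and contained in `sph`.  (2) for
`ε > 0` all but finitely many `γ` have `orb ρ γ` within `fr < ε` of the limit set.  (3) it is invariant: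
`act (ρ γ)` maps it to itself.  (4) if `Q` is in the limit set, `ε > 0` and `X` is given, there is `γ` with
`fr (orb ρ γ) Q < ε` and `X < hs (ρ γ)`.
Proof: cluster points of a family form a closed set.  `orb ρ γ` is positive semidefinite of trace one
with determinant `1/hs² → 0` along `cofinite` (discreteness, hLMX), so cluster points are in `sph`.
(2) otherwise infinitely many `γ` have `orb ρ γ` in the compact set of positive semidefinite matrices
of trace one, at `fr`-distance `≥ ε` from the limit set; a cluster point along this infinite set is a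
limit point, contradiction.  (3) `orb ρ (γ δ) = act (ρ γ) (orb ρ δ)`, `act A` is continuous at matrices
`Q` of trace one positive semidefinite (the trace of `A Q Aᴴ` is positive) and `δ ↦ γ δ` preserves
`cofinite`.  (4) from the definition: infinitely many `γ`, discreteness.
Hypotheses: hLFR hLQC hLMX. -/
def StLLS : Prop := ∀ (Γ : Type) [Group Γ] (ρ : Γ →* SL), IsDiscrete ρ →
  IsClosed (limitSet ρ) ∧ limitSet ρ ⊆ sph ∧
  (∀ ε : ℝ, 0 < ε → {γ : Γ | ∀ Q ∈ limitSet ρ, ε ≤ fr (orb ρ γ) Q}.Finite) ∧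
  (∀ γ, ∀ Q ∈ limitSet ρ, act (ρ γ) Q ∈ limitSet ρ) ∧
  ∀ Q ∈ limitSet ρ, ∀ ε : ℝ, 0 < ε → ∀ X : ℝ, ∃ γ, fr (orb ρ γ) Q < ε ∧ X < hs (ρ γ : Mat)

/-- LDY (about 120 lines)
(Convergence dynamics.)  Let `ρ` be discrete, `ε > 0`.  For all but finitely many `γ`: every point `Q`
of the sphere with `fr Q R ≥ ε` for all `R` in the limit set satisfies
`fr (orb ρ γ) (act (ρ γ) Q) < ε`.
Proof: by hLLS (2) for `γ⁻¹` and discreteness, outside a finite set there is `R` in the limit set with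
`fr (orb ρ γ⁻¹) R < ε/4`, so `√(fr (orb ρ γ⁻¹) Q) ≥ √ε - √ε/2`, `fr (orb ρ γ⁻¹) Q ≥ ε/4`, and by hLMX
`fr (orb ρ γ) (act (ρ γ) Q) ≤ 2/(hs · hs ε/8) = 16/(ε hs²) < ε` if `hs² > 16/ε²`.  (If the limit set is empty then
`Γ` is finite by hLLS (2).)
Hypotheses: hLFR hLMX hLLS. -/
def StLDY : Prop := ∀ (Γ : Type) [Group Γ] (ρ : Γ →* SL), IsDiscrete ρ → ∀ ε : ℝ, 0 < ε →
  {γ : Γ | ∃ Q ∈ sph, (∀ R ∈ limitSet ρ, ε ≤ fr Q R) ∧
    ε ≤ fr (orb ρ γ) (act (ρ γ) Q)}.Finite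

/-- LLA (about 150 lines)
(The limit set in the coordinate.)  Let `ρ` be discrete with `Qinf ∉ limitSet ρ`.  (1) `Lam ρ` is
compact, `limitSet ρ = Qp '' Lam ρ`, and for `z ∈ Lam ρ`: `den (ρ γ) z ≠ 0`, `mob (ρ γ) z ∈ Lam ρ`; also `z ∉ Lam ρ`,
`den (ρ γ) z ≠ 0` imply `mob (ρ γ) z ∉ Lam ρ`.  (2) dynamics: for every compact `K` disjoint from `Lam ρ` and
`ε > 0`, for all but finitely many `γ` there is `l ∈ Lam ρ` with `fr (orb ρ γ) (Qp l) < ε` and for all `z ∈ K`: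
`den (ρ γ) z ≠ 0` and `‖mob (ρ γ) z - l‖ < ε`.
Proof: `limitSet` is closed in the compact `sph`, misses a neighbourhood of `Qinf`, and `Qp` is a
homeomorphism of `ℂ` onto `sph ∖ {Qinf}` (hLQC): (1), using hLLS (3) for `γ` and `γ⁻¹`.  (2) by compactness
`fr (Qp z) R ≥ ε1 > 0` for `z ∈ K`, `R ∈ limitSet`; apply hLDY and hLLS (2) with a small `ε2 ≤ ε1`: there is
`R = Qp l` with `fr (orb ρ γ) R < ε2`, so `√fr (act (ρ γ) (Qp z)) (Qp l) < 2√ε2` for `z ∈ K`; as `Lam ρ` is bounded,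
`fr Qinf (Qp l) ≥ c > 0`, so for small `ε2` the point `act (ρ γ) (Qp z)` is not `Qinf`, hence `den ≠ 0`, and the
formula for `fr (Qp z) (Qp w)` bounds `‖mob (ρ γ) z - l‖` (`Lam ρ` bounded, `mob z` bounded as it is far from `Qinf`).
Hypotheses: hLFR hLQC hLMX hLLS hLDY. -/
def StLLA : Prop := ∀ (Γ : Type) [Group Γ] (ρ : Γ →* SL), IsDiscrete ρ → Qinf ∉ limitSet ρ →
  IsCompact (Lam ρ) ∧ limitSet ρ = Qp '' Lam ρ ∧
  (∀ γ, ∀ z ∈ Lam ρ, den (ρ γ) z ≠ 0 ∧ mob (ρ γ) z ∈ Lam ρ) ∧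
  (∀ γ, ∀ z, z ∉ Lam ρ → den (ρ γ) z ≠ 0 → mob (ρ γ) z ∉ Lam ρ) ∧
  ∀ K : Set ℂ, IsCompact K → Disjoint K (Lam ρ) → ∀ ε : ℝ, 0 < ε →
    {γ : Γ | ¬ ∃ l ∈ Lam ρ, fr (orb ρ γ) (Qp l) < ε ∧
      ∀ z ∈ K, den (ρ γ) z ≠ 0 ∧ ‖mob (ρ γ) z - l‖ < ε}.Finite

/-- LCO (about 250 lines)
(Cocompactness on the domain of discontinuity.)  Let `ρ` be discrete and convex cocompact.  There
is `ε > 0` such that every point `Q` of the sphere outside the limit set has a translate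
`act (ρ γ) Q` with `fr (act (ρ γ) Q) R ≥ ε` for all `R` in the limit set.
Proof: let `C, K` be as in the definition of `ConvexCocompact`.  For `Q ∈ sph` and `P` positive
definite put `b Q P = tr ((adj P) Q) / √(det P)` (the exponential of the Busemann function), which is
positive and invariant under scaling of `P`.  Transformation:
`b (act A Q) (A P Aᴴ) = b Q P / tr (A Q Aᴴ)` (since `adj (A P Aᴴ) = A⁻ᴴ adj P A⁻¹`, `det A = 1`).
(i) If `P_n ∈ C` and `det P_n → 0` then all limit points of `P_n` are in the limit set: `P_n = act (ρ γ_n) K_n`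
with `K_n ∈ K` and `γ_n` leaves every finite set, by hLMX (3) `fr (orb ρ γ_n) P_n → 0` (`tr (A K_n Aᴴ) ≥ c hs A` as
`K_n ≥ c`), and hLLS (2).  (ii) for `Q ∉ limitSet`: `inf_{P ∈ C} b Q P > 0`: otherwise `P_n ∈ C` with
`b Q P_n → 0`; if `det P_n ≥ c` along a subsequence, `P_n → P` positive definite and `b Q P = 0`: impossible;
so `det P_n → 0`, `P_n → R ∈ limitSet`, `tr ((adj R) Q) = 1 - tr (R Q) > 0` as `R ≠ Q`, `b → ∞`:
contradiction.  (iii) for `Q ∈ limitSet`: `inf_{P ∈ C} b Q P = 0`: let `P0 ∈ C`, and `P_k = act (ρ γ_k) P0 → Q`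
(`γ_k` from hLLS (4), hLMX (3)).  For `0 < s < 1` the matrix `(1-s) P0 + s P_k` is in `C` (convexity) and tends
to `(1-s) P0 + s Q`; by continuity `inf_C b Q ≤ b Q ((1-s)P0 + s Q)`, and this is
`(1-s) a/√((1-s)² d + s(1-s) a)` with `a = tr ((adj P0) Q) > 0`, `d = det P0` (`tr ((adj Q) Q) = 0`,
`det (x P0 + y Q) = x² d + x y a`), which tends to `0` as `s → 1`.
(iv) Let `m > 0` be the minimum of `b` on `sph × K` (compact, positive, continuous), and
`Z = {Q ∈ sph | ∀ P ∈ C, m/2 ≤ b Q P}`.  `Z` is closed in the compact `sph`, disjoint from the limit set by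
(iii), so there is `ε > 0` with `fr Q R ≥ ε` for `Q ∈ Z`, `R ∈ limitSet`.  For `Q ∉ limitSet` choose `P ∈ C` with
`b Q P ≤ 2 inf_C b Q` (possible by (ii)) and `γ` with `act (ρ γ) P ∈ K`.  For `P' ∈ C`, `P'' = act (ρ γ⁻¹) P' ∈ C`:
`b (act (ρ γ) Q) P' = b Q P''/N ≥ b Q P/(2N) = b (act (ρ γ) Q) (act (ρ γ) P)/2 ≥ m/2`, `N = tr (A Q Aᴴ)`, so
`act (ρ γ) Q ∈ Z`.  (If `limitSet` is empty any `ε` works.)
Hypotheses: hLFR hLQC hLMX hLLS. -/
def StLCO : Prop := ∀ (Γ : Type) [Group Γ] (ρ : Γ →* SL), CC ρ → ∃ ε : ℝ, 0 < ε ∧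
  ∀ Q ∈ sph, Q ∉ limitSet ρ → ∃ γ, ∀ R ∈ limitSet ρ, ε ≤ fr (act (ρ γ) Q) R

/-- LCZ (about 60 lines)
(Cocompactness on the inside, in the coordinate.)  For `ρ` normalised (`Good`) there is `ε > 0` such
that every `z ∈ inn (Lam ρ)` has a translate with `‖mob (ρ γ) z - l‖ ≥ ε` for all `l ∈ Lam ρ`.
Proof: hLCO for `Q = Qp z`; `den ≠ 0` by `Good.side`, `act (ρ γ) (Qp z) = Qp (mob (ρ γ) z)`, and
`fr (Qp w) (Qp l) ≤ 2‖w - l‖²`.
Hypotheses: hLQC hLLS hLCO. -/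
def StLCZ : Prop := ∀ (Γ : Type) [Group Γ] (ρ : Γ →* SL), Good ρ → ∃ ε : ℝ, 0 < ε ∧
  ∀ z ∈ inn (Lam ρ), ∃ γ, ∀ l ∈ Lam ρ, ε ≤ ‖mob (ρ γ) z - l‖

/-- LNF (about 120 lines)
(The limit set is not the whole sphere.)  If `S ⊆ Mat` is homeomorphic to the circle then some
point of `sph` is not in `S`, or some point of `S` is not in `sph`; precisely: `S ⊆ sph` implies
`∃ Q ∈ sph, Q ∉ S`.
Proof: suppose `S = sph`.  Remove `Qinf` and `Qp 0`: what remains is `Qp '' (ℂ ∖ {0})` (hLQC), connected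
(`isPreconnected_compl_singleton_of_one_lt_rank` or the annulus).  Under the homeomorphism it is the
circle minus two distinct points `a, b`, which is not preconnected: the real linear function
`x ↦ Re (x conj (i(a - b))) - Re (a conj (i(a-b)))` vanishes on the circle exactly at `a, b` and takes both
signs on it.
Hypotheses: hLQC. -/
def StLNF : Prop := ∀ S : Set Mat, Nonempty (S ≃ₜ Circle) → S ⊆ sph → ∃ Q ∈ sph, Q ∉ S

/-- The conjugate representation `B ρ B⁻¹`. -/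
def cj {Γ : Type} [Group Γ] (B : SL) (ρ : Γ →* SL) : Γ →* SL :=
  (MulAut.conj B).toMonoidHom.comp ρ

/-- LCJ (about 200 lines)
(Conjugation.)  `CC` is invariant under conjugation, `limitSet (cj B ρ) = act B '' limitSet ρ`, the
two limit sets are homeomorphic, `Sides` is invariant; and every point of `sph` can be moved to
`Qinf` by `act B` for some `B`.
Proof: `hs (B A B⁻¹) ≤ hs B hs A hs B⁻¹` in both directions: discreteness.  Convex sets: in the Klein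
model `P ↦ act B P` maps segments to segments (`act B ((1-s) P + s Q)` is a convex combination of
`act B P` and `act B Q`), so `act B '' C` is convex; it is invariant, `act B '' K` is compact.  Limit sets:
`orb (cj B ρ) γ = O (B A B⁻¹)` and `act B (orb ρ γ) = O (B A)`: `O (B A) = act (B A) (I/2)`,
`O (B A B⁻¹) = act (B A) (O B⁻¹)`; by hLMX (3) their `fr`-distance tends to zero along cofinite; `act B` is
continuous on positive semidefinite matrices of trace one with inverse `act B⁻¹`.  `Sides`: take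
`act B '' T`.  Last: for `Qp z` take `B` with `den B z = 0`, for instance `!![1, -z-1... ]`: any `B ∈ SL` with
bottom row `(1, -z)`, say `!![0, -1; 1, -z]`; for `Qinf` take `B = 1`.
Hypotheses: hLFR hLQC hLMX hLLS. -/
def StLCJ : Prop := (∀ (Γ : Type) [Group Γ] (ρ : Γ →* SL) (B : SL), CC ρ → CC (cj B ρ) ∧
    limitSet (cj B ρ) = act B '' limitSet ρ ∧
    (Nonempty (limitSet ρ ≃ₜ Circle) → Nonempty (limitSet (cj B ρ) ≃ₜ Circle)) ∧
    (Sides ρ → Sides (cj B ρ))) ∧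
  ∀ Q ∈ sph, ∃ B : SL, act B Q = Qinf

/-- LGO (about 200 lines)
(Reaching the normalised situation.)  Let `ρ` be `CC`, `Qinf ∉ limitSet ρ`, the limit set homeomorphic
to the circle.  (1) `Lam ρ` is a Jordan curve (`Param`).  (2) if `Sides ρ` then for every `γ` the function
`den (ρ γ)` has a continuous logarithm on `Lam ρ`.  (3) if all `den (ρ γ)` have continuous logarithms on
`Lam ρ` then `Good ρ`; conversely `Good ρ` implies this.
Proof: (1) `Lam ρ` is homeomorphic to the limit set (hLLA, hLQC), extend the homeomorphism from the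
circle by anything outside `SS`.  (2) `den A z = c z + d`; if `c = 0` it is a nonzero constant.  If `c ≠ 0` let
`q = -d/c`; `act A (Qp q) = Qinf`, so `Qp q ∉ limitSet` (invariance), and by `Sides` there is a preconnected
`T ⊆ sph ∖ limitSet` which contains `Qp q` and `Qinf`.  `T` is covered by the disjoint sets
`{Qinf} ∪ Qp '' out (Lam ρ)` and `Qp '' inn (Lam ρ)`, both relatively open in `sph` (hTJ2: `out` contains a
neighbourhood of infinity), so `T` is contained in the first, `q ∈ out`, and `c (z - q)` has a logarithm.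
(3) hTMS with `J = Lam ρ` and hLLA (1) (`mob (ρ γ) z ∉ Lam ρ`).  Converse: if `c ≠ 0` the point `q = -d/c` is not
in `Lam ρ` (hLLA) and not in `inn` (`Good.side`), so it is in `out`.
Hypotheses: hLQC hLLA hTJ2 hTMS. -/
def StLGO : Prop := ∀ (Γ : Type) [Group Γ] (ρ : Γ →* SL), CC ρ → Qinf ∉ limitSet ρ →
  Nonempty (limitSet ρ ≃ₜ Circle) →
  (∃ β, Param β (Lam ρ)) ∧ (Sides ρ → ∀ γ, LogOn (Lam ρ) (den (ρ γ))) ∧
  ((∀ γ, LogOn (Lam ρ) (den (ρ γ))) ↔ Good ρ)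

end Pool.Agent.Helper20.QD
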