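import Pool.Agent.Helper20.QD.St3
import Pool.Agent.Helper20.QD.St6

/-!
# Project QD, part B: statements, file 4 (Floyd's lemma: boundary maps between limit sets)
-/

open Filter Topology Matrix Set Metric
open scoped ComplexConjugate ComplexOrder

namespace Pool.Agent.Helper20.QD

open Pool.Agent.Helper35.PM

/-- FSG (about 200 lines)
(Geodesic segments in `ℍ³`.)  Let `R, R'` be positive definite of determinant one.  There are
`τ ≥ 0` and a path `S : ℝ → Mat`, `S 0 = R`, `S τ = R'`, with `S t` positive definite of determinant one,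
(a) for `0 ≤ t ≤ τ`: `S t = x R + y R'` with `x, y ≥ 0`; (b) `tr ((adj (S t)) (S u)) = 2 cosh (t - u)`; (c) there are
`m > 0` and `t0` with `m/2 * e^{|t - t0|} ≤ tr (S t)` for `0 ≤ t ≤ τ`, and
`1/m² ≤ det (R/tr R) + det (R'/tr R') + fr (R/tr R) (R'/tr R')`.
Proof: simultaneous diagonalisation: `R = G Gᴴ` with `det G = 1` (positive square root), `G⁻¹ R' G⁻ᴴ =
U diag(e^τ, e^{-τ}) Uᴴ` with `U` unitary (`det U = 1`), `τ ≥ 0`; `B = G U`, `S t = B diag(e^t, e^{-t}) Bᴴ`.  (a):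
`diag(e^t, e^{-t}) = x I + y diag(e^τ, e^{-τ})` has nonnegative solutions for `0 ≤ t ≤ τ` (`τ > 0`:
`y = sinh t / sinh τ`, `x = cosh t - y cosh τ = sinh(τ - t)/sinh τ`).  (b): `adj (S t) = B⁻ᴴ diag(e^{-t}, e^t) B⁻¹`.
(c): `tr (S t) = e^t |b1|² + e^{-t} |b2|²` with the columns of `B`, `= M cosh (t - s)`, `M = 2|b1||b2|`, `s = log(|b2|/|b1|)`.
Let `t0` be the point of `[0, τ]` closest to `s`, `m = tr (S t0)` (the minimum on `[0, τ]`).  If `t0 = s`,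
`M cosh(t - s) ≥ (m/2) e^{|t - s|}`; if `s < 0 = t0`, `cosh (t - s)/cosh s ≥ e^t/2` since
`cosh (t + |s|) ≥ e^{t + |s|}/2 ≥ e^t cosh(s)/2`; similarly if `s > τ`.  Finally `1/m² = det (S t0 / tr)`, and
`S t0/tr = (1-r) P + r P'` with `P = R/tr R`, `P' = R'/tr R'`, `0 ≤ r ≤ 1`, whose determinant is
`(1-r)² det P + r² det P' + r(1-r) (det P + det P' + fr P P'/2)` (for trace one Hermitian `2 × 2` matrices
`tr ((adj P) P') = det P + det P' + fr P P'/2`).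
Hypotheses: none. -/
def StFSG : Prop := ∀ R R' : Mat, R.PosDef → R'.PosDef → R.det = 1 → R'.det = 1 →
  ∃ (τ : ℝ) (S : ℝ → Mat) (m t0 : ℝ), 0 ≤ τ ∧ S 0 = R ∧ S τ = R' ∧ 0 < m ∧
  (∀ t, (S t).PosDef ∧ (S t).det = 1) ∧
  (∀ t ∈ Icc 0 τ, ∃ x y : ℝ, 0 ≤ x ∧ 0 ≤ y ∧ S t = (x : ℂ) • R + (y : ℂ) • R') ∧
  (∀ t u : ℝ, ((S t).adjugate * S u).trace = ((2 * Real.cosh (t - u) : ℝ) : ℂ)) ∧
  (∀ t ∈ Icc 0 τ, m / 2 * Real.exp |t - t0| ≤ (S t).trace.re) ∧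
  1 / m ^ 2 ≤ (density R).det.re + (density R').det.re + fr (density R) (density R')

/-- FSB (about 300 lines)
(Subdivision.)  Let `ρ` be `CC`.  There are a finite set `F ⊆ Γ` and constants such that any `γ, γ'`
are joined by a chain `g 0 = γ, ..., g N = γ'` with `(g i)⁻¹ g (i+1) ∈ F`,
`c m e^{c|i - i0|} ≤ hs (ρ (g i))`, `1/m² ≤ C (1/hs(ρ γ)² + 1/hs(ρ γ')² + fr (orb γ) (orb γ'))` and
`N ≤ C (1 + log hs (ρ (γ⁻¹ γ')))`.
Proof: `C0, K` from convex cocompactness, `P0 ∈ C0`, `K1 = K ∪ {P0}`; `c I ≤ P ≤ I` for `P ∈ K1`.  Let `R, R'` be the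
determinant one multiples of `ρ(γ) P0 ρ(γ)ᴴ`, `ρ(γ') P0 ρ(γ')ᴴ`, `τ, S, m, t0` from hFSG, `N = ⌊τ⌋ + 1`,
`t_i = τ i/N`.  `density (S t_i) ∈ C0` (a convex combination of `density R, density R' ∈ C0`).  Choose `g i` with
`act (ρ (g i))⁻¹ (density (S t_i)) ∈ K` for `0 < i < N`, `g 0 = γ`, `g N = γ'` (then it is `P0`).
(1) `F`: for `s = (g i)⁻¹ g (i+1)` there are `P, P' ∈ K1` with determinant one multiples `X, X'` and
`tr ((adj X) (ρ(s) X' ρ(s)ᴴ)) = 2 cosh (t_{i+1} - t_i) ≤ 2 cosh 1`; since `X, X'` are bounded above and below this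
bounds `hs (ρ s)`, so `s` lies in a finite set by discreteness.  (2) `tr (S t_i)` and `hs (ρ (g i))` are
comparable (`S t_i = ρ(g i) X ρ(g i)ᴴ`, `c' I ≤ X ≤ C' I`); `|t_i - t0| ≥ (τ/N)|i - N t0/τ|`, and `τ/N ≥ 1/2` if `τ ≥ 1`;
for `τ < 1` there are only the indices `0, 1` (`N = 1`) and any `i0` works.  (3) `det (density R) ≤ C/hs(ρ γ)²` and
`fr (density R) (orb γ) ≤ C/hs(ρ γ)²` by hLMX (3) (`density R = act (ρ γ) P0`), `√fr` is a distance (hLFR).  (4)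
`2 cosh τ = tr ((adj R) R') ≤ C hs (ρ (γ⁻¹γ'))`, so `N ≤ τ + 1 ≤ C (1 + log hs)`.
Hypotheses: hLFR hLQC hLMX hFSG. -/
def StFSB : Prop := ∀ (Γ : Type) [Group Γ] (ρ : Γ →* SL), CC ρ →
  ∃ (F : Set Γ) (c C : ℝ), F.Finite ∧ 0 < c ∧ 0 < C ∧ ∀ γ γ' : Γ,
    ∃ (N : ℕ) (g : ℕ → Γ) (i0 m : ℝ), g 0 = γ ∧ g N = γ' ∧ 0 < m ∧
      (∀ i < N, (g i)⁻¹ * g (i + 1) ∈ F) ∧
      1 / m ^ 2 ≤ C * (1 / hs (ρ γ : Mat) ^ 2 + 1 / hs (ρ γ' : Mat) ^ 2 +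
        fr (orb ρ γ) (orb ρ γ')) ∧
      (∀ i ≤ N, c * m * Real.exp (c * |(i : ℝ) - i0|) ≤ hs (ρ (g i) : Mat)) ∧
      (N : ℝ) ≤ C * (1 + Real.log (hs (ρ (γ⁻¹ * γ') : Mat)))

/-- FQI (about 80 lines)
(Comparison of norms.)  If `ρ1` is `CC` and `ρ2` any representation of the same group, there are
`a, B > 0` with `hs (ρ2 γ) ≤ B hs (ρ1 γ)^a` for all `γ`.
Proof: hFSB for `ρ1` with `γ = 1`: `γ'` is a product of `N` elements of `F`, `hs` is submultiplicative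
(hLMX), so `hs (ρ2 γ') ≤ 2 M^N` with `M = max(2, max_F hs ρ2)` and `N ≤ C (1 + log hs (ρ1 γ'))`.
Hypotheses: hLMX hFSB. -/
def StFQI : Prop := ∀ (Γ : Type) [Group Γ] (ρ1 ρ2 : Γ →* SL), CC ρ1 →
  ∃ a B : ℝ, 0 < a ∧ 0 < B ∧ ∀ γ, hs (ρ2 γ : Mat) ≤ B * hs (ρ1 γ : Mat) ^ a

/-- FLO (about 200 lines)
(Floyd's lemma.)  Let `ρ1, ρ2` be `CC` representations of the same group.  For `ε > 0` there is
`δ > 0`: if `1/hs (ρ1 γ), 1/hs (ρ1 γ') < δ` and `fr (orb ρ1 γ) (orb ρ1 γ') < δ` then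
`fr (orb ρ2 γ) (orb ρ2 γ') < ε`.
Proof: take the chain of hFSB for `ρ1`.  By hLMX (3) with `A = ρ2 (g i)`, `s = (g i)⁻¹ g (i+1) ∈ F`,
`P = orb ρ2 s` (`orb ρ2 (g s) = act (ρ2 g) (orb ρ2 s)`, `tr (A P Aᴴ) ≥ c_F hs A`):
`√fr (orb ρ2 (g i)) (orb ρ2 (g (i+1))) ≤ C_F/hs (ρ2 (g i))`; by hFQI with the roles exchanged
`1/hs (ρ2 g) ≤ (B/hs (ρ1 g))^{1/a}`.  So `√fr (orb ρ2 γ) (orb ρ2 γ') ≤ ∑_i C' (c m e^{c|i - i0|})^{-1/a} ≤ C'' m^{-1/a}`
(geometric series on both sides of `i0`), and `1/m² ≤ 3Cδ`.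
Hypotheses: hLFR hLQC hLMX hFSB hFQI. -/
def StFLO : Prop := ∀ (Γ : Type) [Group Γ] (ρ1 ρ2 : Γ →* SL), CC ρ1 → CC ρ2 →
  ∀ ε : ℝ, 0 < ε → ∃ δ : ℝ, 0 < δ ∧ ∀ γ γ' : Γ, 1 / hs (ρ1 γ : Mat) < δ →
    1 / hs (ρ1 γ' : Mat) < δ → fr (orb ρ1 γ) (orb ρ1 γ') < δ → fr (orb ρ2 γ) (orb ρ2 γ') < ε

/-- FBO (about 250 lines)
(The boundary homeomorphism.)  For two `CC` representations `ρ1, ρ2` of `Γ` there is an equivariant
homeomorphism `b` from the limit set of `ρ1` to that of `ρ2`, compatible with orbits: if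
`orb ρ1 γ` is close to `Q` then `orb ρ2 γ` is close to `b Q`.
Proof: for `Q ∈ limitSet ρ1` choose `γ_n` with `orb ρ1 γ_n → Q`, `hs (ρ1 γ_n) → ∞` (hLLS (4)); by hFLO the
sequence `orb ρ2 γ_n` is Cauchy; let `b Q` be its limit; it is a limit point of `ρ2` since `γ_n` leaves every
finite set.  By hFLO the limit does not depend on the sequence, and the ε-δ statement holds:
given `ε` take `δ` of hFLO for `ε/4` and suitable `δ'` (if `fr (orb ρ1 γ) Q` is small then `det (orb ρ1 γ) = 1/hs²`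
is small because `det Q = 0`).  Continuity of `b` follows.  Exchange `ρ1` and `ρ2`: `b'`; `b' ∘ b = id` since
`orb ρ1 γ_n → Q`, `orb ρ2 γ_n → b Q` implies `orb ρ1 γ_n → b' (b Q)`; so `b` is bijective.  Equivariance:
`orb ρ (γ δ) = act (ρ γ) (orb ρ δ)` and continuity of `act`.
Hypotheses: hLFR hLQC hLMX hLLS hFLO. -/
def StFBO : Prop := ∀ (Γ : Type) [Group Γ] (ρ1 ρ2 : Γ →* SL), CC ρ1 → CC ρ2 →
  ∃ b : Mat → Mat, ContinuousOn b (limitSet ρ1) ∧ BijOn b (limitSet ρ1) (limitSet ρ2) ∧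
    (∀ Q ∈ limitSet ρ1, ∀ ε : ℝ, 0 < ε → ∃ δ : ℝ, 0 < δ ∧ ∀ γ, fr (orb ρ1 γ) Q < δ →
      fr (orb ρ2 γ) (b Q) < ε) ∧
    ∀ γ, ∀ Q ∈ limitSet ρ1, b (act (ρ1 γ) Q) = act (ρ2 γ) (b Q)

/-- FSU (about 250 lines)
(Fuchsian representations are convex cocompact.)  Let `σ` be `Fuch`.  Then `CC σ`, the limit set is
`Qp '' SS`, and orbits in the two models are comparable: for `ζ ∈ SS`, if `mob (σ γ) 0` is close to `ζ` then
`orb σ γ` is close to `Qp ζ`.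
Proof: for `A = !![a, b; conj b, conj a]`: `O A = density (A Aᴴ) = !![1/2, x; conj x, 1/2]` with
`x = a b/(|a|²+|b|²) = (1/2) * 2w/(1+|w|²)`, `w = mob A 0 = b/conj a`; and `Qp ζ = !![1/2, ζ/2; conj ζ/2, 1/2]`: the last
claim (for `|w| ≤ 1`, `|2w/(1+|w|²) - ζ| ≤ 4|w - ζ|`).  Let `C` be the set of positive definite matrices of trace
one with equal diagonal entries; it is convex, nonempty, invariant under `SU(1,1)` (with
`j = !![0,1;1,0]`: `A = j (conj A) j`, and `P 0 0 = P 1 1` iff `P = j (conj P) j` for Hermitian `P`; here `conj` is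
entrywise).  Every `P ∈ C` is `O B` for some `B ∈ SU(1,1)` (solve `2w/(1+|w|²) = 2 P 0 1`, `|2 P 0 1| < 1`, and hSUB
(transitivity); `O` depends only on `w`).  By cocompactness choose `γ` with `‖mob (σ γ) w‖ ≤ r`; then
`act (σ γ) P = O (σ γ B)` and `mob (σ γ B) 0 = mob (σ γ) w`, so it lies in the compact set of matrices of `C` with
`|2 P 0 1| ≤ 2r/(1+r²)`.  Limit set: contained in the closure of `C`, so limit points have equal diagonal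
entries and determinant zero: they are `Qp ζ`, `|ζ| = 1`.  Conversely for `ζ ∈ SS` take `z_n = (1 - 1/n) ζ` and
`γ_n` with `‖mob (σ γ_n⁻¹) z_n‖ ≤ r`; then `mob (σ γ_n) 0 → ζ` (`z_n = mob (σ γ_n) u_n` with `|u_n| ≤ r` and
`|mob A u - mob A 0| ≤ |u|/(|den A u| |den A 0|) ≤ C_r/|a|²`, with `|a| → ∞` since `mob A 0` leaves every compact
subset of the disc when `mob A u_n` does), infinitely many different `γ_n`, so `Qp ζ` is a limit point.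
Hypotheses: hSUB hLFR hLQC hLMX hLLS. -/
def StFSU : Prop := ∀ (Γ : Type) [Group Γ] (σ : Γ →* SL), Fuch σ →
  CC σ ∧ limitSet σ = Qp '' SS ∧
  ∀ ζ ∈ SS, ∀ ε : ℝ, 0 < ε → ∃ δ : ℝ, 0 < δ ∧ ∀ γ, ‖mob (σ γ) 0 - ζ‖ < δ →
    fr (orb σ γ) (Qp ζ) < ε

/-- FCO (about 100 lines)
(The boundary map in coordinates.)  Let `σ` be `Fuch`, `ρ` be `CC` with `Qinf ∉ limitSet ρ`.  There is `b : ℂ → ℂ`
continuous on the circle, a bijection from the circle to `Lam ρ`, with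
`b (mob (σ γ) ζ) = mob (ρ γ) (b ζ)`, and if `mob (σ γ) 0` is close to `ζ` then `orb ρ γ` is close to `Qp (b ζ)`.
Proof: hFSU, hFBO, and `Qp` is a homeomorphism from `Lam ρ` to `limitSet ρ` (hLLA, hLQC).
Hypotheses: hSUB hLFR hLQC hLLA hFBO hFSU. -/
def StFCO : Prop := ∀ (Γ : Type) [Group Γ] (σ ρ : Γ →* SL), Fuch σ → CC ρ →
  Qinf ∉ limitSet ρ → ∃ b : ℂ → ℂ, ContinuousOn b SS ∧ BijOn b SS (Lam ρ) ∧
    (∀ γ, ∀ ζ ∈ SS, b (mob (σ γ) ζ) = mob (ρ γ) (b ζ)) ∧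
    ∀ ζ ∈ SS, ∀ ε : ℝ, 0 < ε → ∃ δ : ℝ, 0 < δ ∧ ∀ γ, ‖mob (σ γ) 0 - ζ‖ < δ →
      fr (orb ρ γ) (Qp (b ζ)) < ε

/-- FDG (about 120 lines)
(Degrees.)  (1) For `A ∈ SU(1,1)` the function `mob A ζ * ζ⁻¹` has a continuous logarithm on the circle,
and so has `den A`.  (2) `Deg1` is stable under composition with `mob A` on both sides, and
`Deg1 φ`, `Deg1 ψ` imply `Deg1 (φ ∘ ψ)`.  (3) a continuous injective map `φ` of the circle to itself is onto,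
and either `Deg1 φ` or `Deg1 (conj ∘ φ)`.
Proof: (1) with `A = !![a, b; conj b, conj a]`: `mob A ζ/ζ = (a/conj a)(1 + b/(aζ))/(1 + conj b ζ/conj a)` and
`den A ζ = conj a (1 + conj b ζ/conj a)`, `|b/a| < 1` (hTPB (4)).  (2) if `φ η = η exp (g η)` and `ψ ζ = ζ exp (k ζ)` then
`φ (ψ ζ) = ζ exp (k ζ + g (ψ ζ))`.  (3) by hTCI (2) `φ ζ ζ^n` has a logarithm for some `n`; write, as in hDLI,
`φ (e^{is}) = e^{iΦ s}` with `Φ` continuous, `Φ (s + 2π) = Φ s - 2πn`.  Injectivity on the circle: on `[0, 2π)` the values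
of `Φ` are distinct modulo `2π`, so `Φ` is strictly monotone on `[0, 2π]`, and `|Φ (2π) - Φ 0| = 2π|n| ≤ 2π` (a larger
increment or `n = 0` contradicts injectivity modulo `2π`); so `n = ±1` and `φ` is onto (intermediate
values).  If `n = -1` then `Deg1 φ`; if `n = 1` then `conj (φ ζ) ζ⁻¹ = conj (φ ζ ζ)` has a logarithm.
Hypotheses: hTCI hTPB. -/
def StFDG : Prop :=
  (∀ A : SL, IsSU A → LogOn SS (fun ζ => mob A ζ * ζ ^ (-1 : ℤ)) ∧ LogOn SS (den A)) ∧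
  (∀ (A B : SL) (φ : ℂ → ℂ), IsSU A → IsSU B → Deg1 φ → Deg1 (fun ζ => mob A (φ (mob B ζ)))) ∧
  (∀ φ ψ : ℂ → ℂ, Deg1 φ → Deg1 ψ → Deg1 (fun ζ => φ (ψ ζ))) ∧
  (∀ φ : ℂ → ℂ, ContinuousOn φ SS → InjOn φ SS → MapsTo φ SS SS →
    SurjOn φ SS SS ∧ (Deg1 φ ∨ Deg1 (fun ζ => conj (φ ζ))))

/-- FSD (about 150 lines)
(Sides are preserved as soon as a Fuchsian representation exists.)  Let `σ` be `Fuch`, `ρ` be `CC` with
`Qinf ∉ limitSet ρ` (then `Lam ρ` is a Jordan curve by hFCO).  Then `den (ρ γ)` has a continuous logarithm on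
`Lam ρ` for every `γ`; hence `Good ρ`.
Proof: `b` from hFCO, `J = Lam ρ`, `Param b J`; `s = ±1` from hTJ1.  Let `A = ρ γ = !![a, b'; c, d]`, `c ≠ 0` (otherwise
trivial), `q = -d/c ∉ J` (hLLA).  `inn J` is open and nonempty: choose `p ∈ inn J`, `p ≠ a/c`, and let
`q' = mob A⁻¹ p` (`den A⁻¹ p = -c p + a ≠ 0`), `q' ∉ J`.  `mob A z - p = (a - p c)(z - q')/(c (z - q))` on `J`.  With
`z = b ζ`: the left side is `b (mob (σ γ) ζ) - p ~ (mob (σ γ) ζ)^s ~ ζ^s` (`~`: the quotient has a logarithm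
on the circle; hTJ1, hFDG (1), hTPB).  On the right `b ζ - q' ~ ζ^{s e'}`, `b ζ - q ~ ζ^{s e}` with `e, e' ∈ {0, 1}`, `e = 1` iff
`q ∈ inn J` (hTJ1 for `inn`, definition for `out`).  By hTCI (1) `s = s e' - s e`, so `e = 0`, `q ∈ out J`, and
`den A z = c (z - q)` has a logarithm.  `Good ρ` by hLGO (3) (the limit set is homeomorphic to the
circle by `b` and `Qp`).
Hypotheses: hTCI hTPB hTJ1 hTJ2 hLQC hLLA hLGO hFCO hFDG. -/
def StFSD : Prop := ∀ (Γ : Type) [Group Γ] (σ ρ : Γ →* SL), Fuch σ → CC ρ →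
  Qinf ∉ limitSet ρ → (∀ γ, LogOn (Lam ρ) (den (ρ γ))) ∧ Good ρ

/-- FTF (about 150 lines)
(Two Fuchsian representations are quasiconformally conjugate.)  Let `σ, τ` be `Fuch` representations
of the same group.  There are `E : ℂ → ℂ` and `k < 1`: `E` is continuous on the closed disc, a `C^1`
diffeomorphism of `D`, bijective on the circle, `|dzb E| ≤ k |dz E|`, and either
`E ∘ mob (σ γ) = mob (τ γ) ∘ E` on the closed disc for all `γ`, or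
`E ∘ mob (σ γ) = mob (τ' γ) ∘ E`, where `τ' γ` is the entrywise complex conjugate of `τ γ`
(`mob (τ' γ) z = conj (mob (τ γ) (conj z))`).
Proof: hFCO is for `Qinf ∉ limitSet`, which holds for `τ` (hFSU): `b : SS → Lam τ = SS` equivariant,
`φ = b`; by hFDG (3) `Deg1 φ` or `Deg1 (conj ∘ φ)`; in the second case `conj ∘ φ` conjugates `σ` to `τ'`.  hDET (with
`A = τ γ` or `τ' γ`, `B = σ γ`) and hDDI.
Hypotheses: hSUB hDET hDDI hLQC hFSU hFCO hFDG. -/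
def StFTF : Prop := ∀ (Γ : Type) [Group Γ] (σ τ : Γ →* SL), Fuch σ → Fuch τ →
  ∃ (E : ℂ → ℂ) (k : ℝ) (τ' : Γ →* SL), 0 ≤ k ∧ k < 1 ∧ Fuch τ' ∧
    ((∀ γ, τ' γ = τ γ) ∨ (∀ γ i j, (τ' γ : Mat) i j = conj ((τ γ : Mat) i j))) ∧
    ContinuousOn E DD ∧ BijOn E D D ∧ BijOn E SS SS ∧ ContDiffOn ℝ 1 E D ∧
    (∀ z ∈ D, dz E z ≠ 0 ∧ ‖dzb E z‖ ≤ k * ‖dz E z‖) ∧
    ∀ γ, ∀ z ∈ DD, E (mob (σ γ) z) = mob (τ' γ) (E z)

end Pool.Agent.Helper20.QD
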